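import Pool.Agent.N504.RS.Tri

/-!
# Subdividing the monochromatic edges: statement C3 of project LT
-/

set_option autoImplicit false

namespace Pool.Agent.U966.LT

open Pool.Agent.N496.LT

theorem c3 : C3 := by
  intro n G col hB hT
  obtain ⟨n', G', κ, h1, h2, h3, h4, -, -, h7⟩ := Pool.Agent.N504.RS.tri n G col hB hT
  refine ⟨n', G', h1, h2, h3, h4, fun m hm hm' => ?_⟩
  obtain ⟨s, t, k1, k2, k3, k4, k5, k6, -, -, k9⟩ := h7 m hm hm'
  exact ⟨s, t, k1, k2, k3, k4, k5, k6, fun u hu hus hut => ⟨(k9 u hu hus hut).1, (k9 u hu hus hut).2.1⟩⟩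

end Pool.Agent.U966.LT
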