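import Pool.Agent.U966.LT.P1d
import Pool.Agent.U729.LT.P2G
import Pool.Agent.Y132.SI.Free

/-!
# Project LT, statement P1: growth of the number of top-dimensional cycles
-/

set_option autoImplicit false
set_option linter.unusedSectionVars false

namespace Pool.Agent.U966.LT

open Module Pool.Agent.W907.SG Pool.Agent.N496.LT

section abs

variable {V F M : Type} [Fintype V] [LinearOrder V] [Field F] [AddCommGroup M] [Module F M]
  [FiniteDimensional F M] {G : SimpleGraph V} {d : ℕ} (X : Dbl F G d) (ρ : V → Module.End F M)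

theorem ker_mul_le (f g : Module.End F M) :
    finrank F (LinearMap.ker (f * g)) ≤ finrank F (LinearMap.ker f) + finrank F (LinearMap.ker g) := by
  have h1 := ker_le g (LinearMap.ker (f * g))
  have h2 : (LinearMap.ker (f * g)).map g ≤ LinearMap.ker f := by
    rintro _ ⟨x, hx, rfl⟩
    exact hx
  have h3 : LinearMap.ker (f * g) ⊓ LinearMap.ker g ≤ LinearMap.ker g := inf_le_right
  have h4 := Submodule.finrank_mono h2
  have h5 := Submodule.finrank_mono h3
  omega

variable (hcomm : ∀ u v, G.Adj u v → Commute (ρ u) (ρ v))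
include hcomm

theorem ker_pr (κ0 : ℕ) (hκ : ∀ x, finrank F (LinearMap.ker (ee X ρ x)) ≤ κ0) {σ : Finset (Fin X.n)}
    (h : Cl X σ) : finrank F (LinearMap.ker (pr σ fun y => ee X ρ y)) ≤ σ.card * κ0 := by
  induction σ using Finset.induction_on with
  | empty =>
    rw [pr_empty]
    have : LinearMap.ker (1 : Module.End F M) = ⊥ := LinearMap.ker_id
    rw [this]
    simp
  | insert x σ hx ih =>
    rw [pr_insert σ x _ hx (pw_ee X ρ hcomm h), Finset.card_insert_of_notMem hx, add_mul, one_mul]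
    have h1 := ker_mul_le (ee X ρ x) (pr σ fun y => ee X ρ y)
    have h2 := ih (h.mono X (Finset.subset_insert _ _))
    have h3 := hκ x
    omega

theorem pr_mem_NU {σ : Finset (Fin X.n)} (h : Cl X σ) {m : M} (hm : m ∈ NU X ρ σ) :
    pr σ (fun y => ee X ρ y) m ∈ NU X ρ σ := by
  intro x hx hxU
  have hc : Commute (ρ (X.j x true)) (pr σ (fun y => ee X ρ y)) := by
    refine pr_comm _ _ _ fun y hy => ?_
    by_cases hxy : x = y
    · subst hxy
      unfold ee
      rw [if_pos hxU]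
      exact Commute.one_right _
    · exact comm5 X ρ hcomm h hx hy hxy _
  have h1 := congrArg (fun f : Module.End F M => f m) hc.eq
  simp only [Module.End.mul_apply] at h1
  rw [h1, hm x hx hxU, map_neg]

theorem ee_mem_NU {σ : Finset (Fin X.n)} (h : Cl X σ) {x : Fin X.n} (hx : x ∈ σ) {m : M}
    (hm : m ∈ NU X ρ σ) : ee X ρ x m ∈ NU X ρ σ := by
  intro y hy hyU
  have hc : Commute (ρ (X.j y true)) (ee X ρ x) := by
    by_cases hxy : y = x
    · subst hxy
      unfold ee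
      rw [if_pos hyU]
      exact Commute.one_right _
    · exact comm5 X ρ hcomm h hy hx hxy _
  have h1 := congrArg (fun f : Module.End F M => f m) hc.eq
  simp only [Module.End.mul_apply] at h1
  rw [h1, hm y hy hyU, map_neg]

omit hcomm in
theorem NU_mono {σ τ : Finset (Fin X.n)} (h : σ ⊆ τ) : NU X ρ τ ≤ NU X ρ σ :=
  fun _ hm x hx hxU => hm x (h hx) hxU

omit hcomm in
theorem exists_sec (A : Submodule F M) (f : M →ₗ[F] M) :
    ∃ s : M →ₗ[F] M, ∀ g ∈ A.map f, s g ∈ A ∧ f (s g) = g := by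
  obtain ⟨r, hr⟩ := LinearMap.exists_rightInverse_of_surjective
    (f.domRestrict A).rangeRestrict (LinearMap.range_rangeRestrict _)
  obtain ⟨s, hs⟩ := LinearMap.exists_extend r
  refine ⟨A.subtype ∘ₗ s, fun g hg => ?_⟩
  have hg' : g ∈ LinearMap.range (f.domRestrict A) := by
    obtain ⟨a, ha, rfl⟩ := hg
    exact ⟨⟨a, ha⟩, rfl⟩
  have h1 : s g = r ⟨g, hg'⟩ := by
    have := congrArg (fun φ => φ ⟨g, hg'⟩) hs
    simpa using this
  constructor
  · exact (s g).2
  · have h2 := congrArg (fun φ => φ ⟨g, hg'⟩) hr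
    have h3 := congrArg Subtype.val h2
    show f (s g : M) = g
    rw [h1]
    exact h3

theorem growth_abs (hinv : ∀ v, ρ v * ρ v = 1) (κ0 : ℕ)
    (hκ : ∀ x, finrank F (LinearMap.ker (ee X ρ x)) ≤ κ0) (A : Set V) (hA : ∀ v b, X.j v b ∈ A) :
    finrank F (NU X ρ Finset.univ) ≤ finrank F (ZZ G ρ A ∅ (d + 1)) +
      (2 ^ X.n + 2 ^ X.n * (X.n * X.n)) * (X.n * κ0) := by
  classical
  have hex : ∀ σ : Finset (Fin X.n), ∃ s : M →ₗ[F] M, ∀ g ∈ (NU X ρ σ).map (pr σ fun y => ee X ρ y),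
      s g ∈ NU X ρ σ ∧ pr σ (fun y => ee X ρ y) (s g) = g := fun σ => exists_sec _ _
  choose s hs1 using hex
  have hcard : ∀ σ : Finset (Fin X.n), σ.card * κ0 ≤ X.n * κ0 := by
    intro σ
    refine Nat.mul_le_mul_right _ ?_
    have := Finset.card_le_univ σ
    rwa [Fintype.card_fin] at this
  obtain ⟨K, hK⟩ : ∃ K : Finset (Finset (Fin X.n)), K = Finset.univ.filter fun σ => X.z σ ≠ 0 := ⟨_, rfl⟩
  have hKm : ∀ σ, σ ∈ K ↔ X.z σ ≠ 0 := fun σ => by rw [hK]; simp
  obtain ⟨I, hI⟩ : ∃ I : Finset (Fin X.n) → Submodule F M,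
      ∀ σ, I σ = (NU X ρ σ).map (pr σ fun y => ee X ρ y) := ⟨_, fun _ => rfl⟩
  have c1 : ∀ σ ∈ K, Cod (NU X ρ Finset.univ) (I σ) (X.n * κ0) := by
    intro σ hσ
    have hCl := cl_of X ((hKm σ).1 hσ)
    refine Cod.mono (A := NU X ρ σ) ?_ (NU_mono X ρ (Finset.subset_univ σ))
    have h1 : I σ ≤ NU X ρ σ := by
      rw [hI]
      rintro _ ⟨m, hm, rfl⟩
      exact pr_mem_NU X ρ hcomm hCl hm
    have h2 := ker_le (pr σ fun y => ee X ρ y) (NU X ρ σ)
    have h3 := Submodule.finrank_mono (inf_le_right : NU X ρ σ ⊓ LinearMap.ker (pr σ fun y => ee X ρ y) ≤ _)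
    have h4 := ker_pr X ρ hcomm κ0 hκ hCl
    have h5 := hcard σ
    unfold Cod
    rw [inf_eq_right.2 h1, hI]
    omega
  have d1 := cod_iInf (NU X ρ Finset.univ) I (fun _ => X.n * κ0) K c1
  obtain ⟨B, hB⟩ : ∃ B, B = NU X ρ Finset.univ ⊓ ⨅ σ ∈ K, I σ := ⟨_, rfl⟩
  have hB1 : ∀ g ∈ B, ∀ σ, X.z σ ≠ 0 → g ∈ I σ := by
    intro g hg σ hσ
    rw [hB, Submodule.mem_inf] at hg
    simp only [Submodule.mem_iInf] at hg
    exact hg.2 σ ((hKm σ).2 hσ)
  rw [← hB] at d1
  obtain ⟨Q, hQ⟩ : ∃ Q : Finset (Finset (Fin X.n) × Fin X.n × Fin X.n), Q = Finset.univ.filter fun q =>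
      q.2.1 ∉ q.1 ∧ q.2.2 ∉ q.1 ∧ X.z (insert q.2.1 q.1) ≠ 0 ∧ X.z (insert q.2.2 q.1) ≠ 0 := ⟨_, rfl⟩
  have hQm : ∀ q, q ∈ Q ↔ q.2.1 ∉ q.1 ∧ q.2.2 ∉ q.1 ∧ X.z (insert q.2.1 q.1) ≠ 0 ∧
      X.z (insert q.2.2 q.1) ≠ 0 := fun q => by rw [hQ]; simp
  obtain ⟨φ, hφ⟩ : ∃ φ : Finset (Fin X.n) × Fin X.n × Fin X.n → (M →ₗ[F] M),
      ∀ q, φ q = ee X ρ q.2.1 ∘ₗ s (insert q.2.1 q.1) - ee X ρ q.2.2 ∘ₗ s (insert q.2.2 q.1) := ⟨_, fun _ => rfl⟩
  have hpr : ∀ (τ : Finset (Fin X.n)) (x : Fin X.n), x ∉ τ → X.z (insert x τ) ≠ 0 → ∀ g ∈ B,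
      pr τ (fun y => ee X ρ y) (ee X ρ x (s (insert x τ) g)) = g := by
    intro τ x hx hz g hg
    have hCl := cl_of X hz
    have h1 := (hs1 (insert x τ) g (by rw [← hI]; exact hB1 g hg _ hz)).2
    rw [pr_insert τ x _ hx (pw_ee X ρ hcomm hCl)] at h1
    have h2 : Commute (ee X ρ x) (pr τ (fun y => ee X ρ y)) := by
      refine pr_comm _ _ _ fun y hy => ?_
      exact comm6 X ρ hcomm hCl (Finset.mem_insert_self _ _) (Finset.mem_insert_of_mem hy)
        (fun e => hx (e ▸ hy))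
    rw [h2.eq, Module.End.mul_apply] at h1
    exact h1
  have c2 : ∀ q ∈ Q, Cod B (LinearMap.ker (φ q)) (X.n * κ0) := by
    intro q hq
    obtain ⟨a1, a2, a3, a4⟩ := (hQm q).1 hq
    have h1 : B.map (φ q) ≤ LinearMap.ker (pr q.1 fun y => ee X ρ y) := by
      rintro _ ⟨g, hg, rfl⟩
      rw [LinearMap.mem_ker, hφ, LinearMap.sub_apply, map_sub, LinearMap.comp_apply, LinearMap.comp_apply,
        hpr _ _ a1 a3 g hg, hpr _ _ a2 a4 g hg, sub_self]
    have h2 := ker_le (φ q) B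
    have h3 := Submodule.finrank_mono h1
    have h4 := ker_pr X ρ hcomm κ0 hκ ((cl_of X a3).mono X (Finset.subset_insert _ _))
    have h5 := hcard q.1
    unfold Cod
    omega
  have d2 := cod_iInf B (fun q => LinearMap.ker (φ q)) (fun _ => X.n * κ0) Q c2
  obtain ⟨L, hL⟩ : ∃ L, L = B ⊓ ⨅ q ∈ Q, LinearMap.ker (φ q) := ⟨_, rfl⟩
  rw [← hL] at d2
  have hLB : L ≤ B := by rw [hL]; exact inf_le_left
  have hL1 : ∀ g ∈ L, ∀ τ x x', x ∉ τ → x' ∉ τ → X.z (insert x τ) ≠ 0 → X.z (insert x' τ) ≠ 0 →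
      ee X ρ x (s (insert x τ) g) = ee X ρ x' (s (insert x' τ) g) := by
    intro g hg τ x x' a1 a2 a3 a4
    rw [hL, Submodule.mem_inf] at hg
    simp only [Submodule.mem_iInf] at hg
    have h1 := hg.2 (τ, x, x') ((hQm _).2 ⟨a1, a2, a3, a4⟩)
    rw [LinearMap.mem_ker, hφ, LinearMap.sub_apply, sub_eq_zero] at h1
    exact h1
  -- the map to the cycles
  let CC : M →ₗ[F] (Finset V → M) :=
    { toFun := fun g => cc X ρ fun σ => s σ g
      map_add' := by
        intro g g'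
        funext T
        simp only [cc, Pi.add_apply, map_add, smul_add]
        split_ifs
        · rfl
        · rw [add_zero]
      map_smul' := by
        intro c g
        funext T
        simp only [cc, Pi.smul_apply, map_smul, RingHom.id_apply]
        split_ifs
        · rw [smul_comm]
        · rw [smul_zero] }
  have hCC : ∀ g, CC g = cc X ρ fun σ => s σ g := fun g => rfl
  have hmem : ∀ g : L, CC g ∈ ZZ G ρ A ∅ (d + 1) := by
    intro g
    rw [hCC]
    refine cyc X ρ hcomm hinv _ A hA (fun σ hσ => ?_) (hL1 g g.2)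
    exact (hs1 σ g (by rw [← hI]; exact hB1 g (hLB g.2) σ hσ)).1
  have hinj : Function.Injective ((CC.domRestrict L).codRestrict (ZZ G ρ A ∅ (d + 1)) hmem) := by
    rw [← LinearMap.ker_eq_bot, LinearMap.ker_eq_bot']
    intro g hg
    have h1 : CC g = 0 := congrArg Subtype.val hg
    rw [hCC] at h1
    obtain ⟨σ, hσ⟩ := Function.ne_iff.1 X.z_ne
    have h2 := inj X ρ hcomm _ h1 hσ
    rw [(hs1 σ g (by rw [← hI]; exact hB1 g (hLB g.2) σ hσ)).2] at h2
    exact Subtype.ext h2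
  have d3 := LinearMap.finrank_le_finrank_of_injective hinj
  rw [Finset.sum_const, smul_eq_mul] at d1 d2
  have k1 : K.card ≤ 2 ^ X.n := by
    refine (Finset.card_le_univ K).trans ?_
    rw [Fintype.card_finset, Fintype.card_fin]
  have k2 : Q.card ≤ 2 ^ X.n * (X.n * X.n) := by
    refine (Finset.card_le_univ Q).trans ?_
    rw [Fintype.card_prod, Fintype.card_prod, Fintype.card_finset, Fintype.card_fin]
  have k3 := Nat.mul_le_mul_right (X.n * κ0) k1
  have k4 := Nat.mul_le_mul_right (X.n * κ0) k2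
  rw [add_mul]
  omega

end abs

open Pool.Agent.W461.SGN Pool.Agent.Y132.SI Pool.Agent.W397.SG in
/-- **P1.** -/
theorem p1 : P1 := by
  classical
  intro V F _ _ _ G d X ε h2 hε
  obtain ⟨C, hC⟩ : ∃ C : ℕ, C = (2 ^ X.n + 2 ^ X.n * (X.n * X.n)) * X.n := ⟨_, rfl⟩
  obtain ⟨k, hk⟩ : ∃ k : ℕ, (C : ℝ) / ε < k := exists_nat_gt _
  have hk0 : (0 : ℝ) < k := lt_of_le_of_lt (by positivity) hk
  have hk1 : 1 ≤ k := by
    have : 0 < k := by exact_mod_cast hk0
    omega
  rw [div_lt_iff₀ hε] at hk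
  obtain ⟨E1, hE1, hE1'⟩ := exists_tor G
  obtain ⟨E, hE⟩ : ∃ E : Finset (W G), ∀ g, g ∈ E ↔ ∃ s t j, s ≠ t ∧ ¬ G.Adj s t ∧ 1 ≤ j ∧ j < k ∧
      g = ((cox G).simple s * (cox G).simple t) ^ j := by
    refine ⟨((Finset.univ : Finset (V × V × Fin k)).filter fun x => x.1 ≠ x.2.1 ∧ ¬ G.Adj x.1 x.2.1 ∧
      1 ≤ (x.2.2 : ℕ)).image fun x => ((cox G).simple x.1 * (cox G).simple x.2.1) ^ (x.2.2 : ℕ), fun g => ?_⟩
    simp only [Finset.mem_image, Finset.mem_filter, Finset.mem_univ, true_and]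
    constructor
    · rintro ⟨⟨s, t, j⟩, ⟨h1, h3, h4⟩, rfl⟩
      exact ⟨s, t, j, h1, h3, h4, j.2, rfl⟩
    · rintro ⟨s, t, j, h1, h3, h4, h5, rfl⟩
      exact ⟨⟨s, t, j, h5⟩, ⟨h1, h3, h4⟩, rfl⟩
  refine ⟨E1 ∪ E, ?_, ?_⟩
  · rw [Finset.mem_union, not_or]
    refine ⟨hE1, fun h => ?_⟩
    obtain ⟨s, t, j, h1, h3, h4, -, h5⟩ := (hE 1).1 h
    exact Pool.Agent.U729.LT.st_pow G s t h1 h3 j h4 h5.symm
  intro Y _ P A hA
  obtain ⟨ρ, hρ⟩ : ∃ ρ : V → Module.End F (Y → F), ρ = pull F P.a := ⟨_, rfl⟩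
  have hρa : ∀ v f x, ρ v f x = f (P.a v x) := fun v f x => by rw [hρ]; rfl
  rw [← hρ]
  have hinv : ∀ v, ρ v * ρ v = 1 := by
    intro v
    refine LinearMap.ext fun m => ?_
    funext x
    rw [Module.End.mul_apply, hρa, hρa, P.inv]
    rfl
  have hcomm : ∀ u v, G.Adj u v → Commute (ρ u) (ρ v) := by
    intro u v huv
    refine LinearMap.ext fun m => ?_
    funext x
    rw [Module.End.mul_apply, Module.End.mul_apply, hρa, hρa, hρa, hρa, P.comm u v huv]
  -- the kernels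
  have hker : ∀ s t, s ≠ t → ¬ G.Adj s t → k * finrank F (LinearMap.ker (1 - ρ s * ρ t)) ≤ Fintype.card Y := by
    intro s t hst hn
    refine Pool.Agent.U729.LT.inv_dim (F := F) (fun y => P.ev y ((cox G).simple s * (cox G).simple t)) k (by
      intro j hj1 hj2 y
      have h5 : ∀ j, (fun y => P.ev y ((cox G).simple s * (cox G).simple t))^[j] y =
          P.ev y (((cox G).simple s * (cox G).simple t) ^ j) := by
        intro j
        induction j with
        | zero => rw [pow_zero, P.ev_one]; rfl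
        | succ j ih => rw [Function.iterate_succ_apply', ih, pow_succ, P.ev_mul y _ (_ * _)]
      rw [h5]
      exact P.free _ (Finset.mem_union_right _ ((hE _).2 ⟨s, t, j, hst, hn, hj1, hj2, rfl⟩)) y)
      (LinearMap.ker (1 - ρ s * ρ t)) (by
      intro f hf y
      have hf : f - ρ s (ρ t f) = 0 := hf
      have h5 := congrFun hf y
      rw [Pi.sub_apply, hρa, hρa, Pi.zero_apply, sub_eq_zero] at h5
      rw [P.ev_mul, P.ev_simple, P.ev_simple]
      exact h5.symm)
  obtain ⟨κ0, hκ0⟩ : ∃ κ0 : ℕ, κ0 = Fintype.card Y / k := ⟨_, rfl⟩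
  have hκ : ∀ x, finrank F (LinearMap.ker (ee X ρ x)) ≤ κ0 := by
    intro x
    by_cases hU : x ∈ X.U
    · have h5 : ee X ρ x = 1 := by unfold ee; rw [if_pos hU]
      rw [h5]
      have : LinearMap.ker (1 : Module.End F (Y → F)) = ⊥ := LinearMap.ker_id
      rw [this]
      simp
    · obtain ⟨a1, a2⟩ := X.j_adj x hU
      have h5 : ee X ρ x = 1 - ρ (X.j x false) * ρ (X.j x true) := by unfold ee; rw [if_neg hU]
      rw [h5]
      have h3 := hker (X.j x false) (X.j x true) a1.symm (fun h => a2 h.symm)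
      rw [hκ0, Nat.le_div_iff_mul_le (by omega), mul_comm]
      exact h3
  have hmain := growth_abs X ρ hcomm hinv κ0 hκ A hA
  -- the dimension of the space of divided vectors
  have hdim : finrank F (NU X ρ Finset.univ) * 2 ^ X.U.card = Fintype.card Y := by
    obtain ⟨T, hT⟩ : ∃ T : Finset V, T = X.U.image fun x => X.j x true := ⟨_, rfl⟩
    have hTc : T.card = X.U.card := by
      rw [hT]
      exact Finset.card_image_of_injOn fun x _ y _ e => j_inj X e
    have hTq : G.IsClique (T : Set V) := by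
      intro v hv w hw hvw
      rw [hT, Finset.mem_coe, Finset.mem_image] at hv hw
      obtain ⟨x, hx, rfl⟩ := hv
      obtain ⟨y, hy, rfl⟩ := hw
      exact X.cliqueU x hx y hy fun e => hvw (by rw [e])
    have h3 := ET_dim' h2 G P.a P.inv P.comm (fun T t ht hc => by
      refine exists_sigma G P.a P.ev P.ev_one P.ev_mul P.ev_simple (fun T hT g hg hg1 x =>
        P.free g (Finset.mem_union_left _ (hE1' T hT g hg hg1)) x) T t ht ?_
      convert hc) T hTq
    have h4 : NU X ρ Finset.univ = ET F P.a T := by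
      ext f
      constructor
      · intro hf t ht x
        rw [hT, Finset.mem_image] at ht
        obtain ⟨y, hy, rfl⟩ := ht
        have := congrFun (hf y (Finset.mem_univ _) hy) x
        rw [hρa] at this
        exact this
      · intro hf x _ hx
        funext y
        rw [hρa]
        exact hf _ (by rw [hT]; exact Finset.mem_image_of_mem _ hx) y
    rw [h4, ← hTc]
    exact h3
  -- the estimate
  have h2U : (0 : ℝ) < 2 ^ X.U.card := by positivity
  have hd' : (finrank F (NU X ρ Finset.univ) : ℝ) = (1 / 2) ^ X.U.card * Fintype.card Y := by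
    have h3 : (finrank F (NU X ρ Finset.univ) : ℝ) * 2 ^ X.U.card = Fintype.card Y := by exact_mod_cast hdim
    rw [← h3, one_div, inv_pow]
    field_simp
  have hκr : (κ0 : ℝ) * k ≤ Fintype.card Y := by
    have : κ0 * k ≤ Fintype.card Y := by
      rw [hκ0]
      exact Nat.div_mul_le_self _ _
    exact_mod_cast this
  have hm' : (finrank F (NU X ρ Finset.univ) : ℝ) ≤ finrank F (ZZ G ρ A ∅ (d + 1)) + C * κ0 := by
    have h3 : finrank F (NU X ρ Finset.univ) ≤ finrank F (ZZ G ρ A ∅ (d + 1)) + C * κ0 := by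
      rw [hC, mul_assoc _ X.n κ0]
      exact hmain
    exact_mod_cast h3
  have hCκ : (C : ℝ) * κ0 ≤ ε * Fintype.card Y := by
    have h3 : (C : ℝ) * κ0 * k ≤ ε * Fintype.card Y * k := by
      calc (C : ℝ) * κ0 * k = C * (κ0 * k) := by ring
        _ ≤ C * Fintype.card Y := mul_le_mul_of_nonneg_left hκr (Nat.cast_nonneg _)
        _ ≤ (k * ε) * Fintype.card Y := mul_le_mul_of_nonneg_right hk.le (Nat.cast_nonneg _)
        _ = ε * Fintype.card Y * k := by ring
    exact le_of_mul_le_mul_right h3 hk0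
  rw [sub_mul, ← hd']
  linarith

end Pool.Agent.U966.LT
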