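import Pool.Agent.N496.LT.FinS
import Pool.Agent.N496.LT.MainG
import Pool.Agent.N496.LT.C1
import Pool.Agent.N496.LT.C2
import Pool.Agent.N496.LT.E1
import Pool.Agent.N496.LT.E2
import Pool.Agent.U966.LT.C3
import Pool.Agent.U966.LT.P1
import Pool.Agent.U729.LT.P2G
import Pool.Agent.U582.LT.P3
import Pool.Agent.U331.LT.P4B3
import Pool.Agent.U171.LT.P4A
import Pool.Agent.U171.LT.P4R
import Pool.Agent.U755.LT.P5

/-!
# Project LT: the assembly
-/

set_option autoImplicit false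

noncomputable section

namespace Pool.Agent.U966.LT

open Module Filter Topology Pool.Agent.W907.SG Pool.Agent.TH630.Tor Pool.Agent.W461.SGN Pool.Agent.R782.Bal
open Pool.Agent.TH652.Above (HSph)
open Pool.Agent.Y132.SI (aa)
open Pool.Agent.N496.LT

theorem main3S : Main3S := by
  intro d N H hd hS f hf hf1 hfi p _ hp Z c hc
  obtain ⟨n, S, A, κ, Z', h1, h2, h3, h4, h5, h6, h7⟩ :=
    build (c2 c1) c3 e1 e2 H hd hS f hf hf1 hfi Z c hc
  have h := mainG3 p1 Pool.Agent.U729.LT.p2g Pool.Agent.U582.LT.p3a Pool.Agent.U582.LT.p3t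
    Pool.Agent.U331.LT.p4b Pool.Agent.U171.LT.p4r Pool.Agent.U171.LT.p4a Pool.Agent.U755.LT.p5A
    Pool.Agent.U755.LT.p5B h3 κ h4 h5 p hp Z' h6
  rw [h7, Fintype.card_fin] at h
  exact ⟨n, S, h1, h2, h⟩

theorem main2S : Main2S := by
  intro d N H hd hS f hf hf1 hfi p _ hp Z c hc
  obtain ⟨n, S, A, κ, Z', h1, h2, h3, h4, h5, h6, h7⟩ :=
    build (c2 c1) c3 e1 e2 H hd hS f hf hf1 hfi Z c hc
  have h := mainG2 p1 Pool.Agent.U729.LT.p2g Pool.Agent.U582.LT.p3a Pool.Agent.U582.LT.p3s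
    Pool.Agent.U331.LT.p4b Pool.Agent.U171.LT.p4r h3 κ h4 h5 p hp Z' h6
  rw [h7, Fintype.card_fin] at h
  exact ⟨n, S, h1, h2, h⟩

end Pool.Agent.U966.LT
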