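import Pool.Agent.N496.LT.Stm2

/-!
# Torsion growth of products of Davis complexes: the definitions used in the final statements
-/

set_option autoImplicit false

open scoped Matrix

noncomputable section

namespace Pool.Agent.U966.LD

open Pool.Agent.TH630.Tor

/-! ### Based free chain complexes over group rings -/

/-- A finite based free chain complex of left modules over the integral group ring of `G` (chains are row vectors):
`ι` is the set of (orbits of) cells of all dimensions, `D i j` is the coefficient of the cell `j` in the boundary of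
the cell `i`. -/
structure Cx (G : Type) [Group G] where
  /-- the cells -/
  ι : Type
  [fin : Fintype ι]
  [dec : DecidableEq ι]
  /-- the dimension of a cell -/
  deg : ι → ℕ
  /-- the boundary -/
  D : Matrix ι ι (MonoidAlgebra ℤ G)
  D_deg : ∀ i j, D i j ≠ 0 → deg i = deg j + 1
  D_sq : D * D = 0

attribute [instance] Cx.fin Cx.dec

namespace Cx

variable {G H : Type} [Group G] [Group H]

/-- the cells of dimension `n` -/
def Cel (C : Cx G) (n : ℕ) : Type := {i : C.ι // C.deg i = n}

instance (C : Cx G) (n : ℕ) : Fintype (C.Cel n) := Subtype.fintype _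

/-- the number of the cells of dimension `n` -/
def num (C : Cx G) (n : ℕ) : ℕ := Fintype.card (C.Cel n)

/-- the `a`-th cell of dimension `n` -/
def cell (C : Cx G) (n : ℕ) (a : Fin (C.num n)) : C.ι := ((Fintype.equivFin (C.Cel n)).symm a).1

/-- the matrix of the boundary map from the chains of degree `n + 1` to those of degree `n` -/
def bm (C : Cx G) (n : ℕ) : Matrix (Fin (C.num (n + 1))) (Fin (C.num n)) (MonoidAlgebra ℤ G) :=
  Matrix.of fun a b => C.D (C.cell (n + 1) a) (C.cell n b)

theorem sum_deg {ι : Type} [Fintype ι] (deg : ι → ℕ) (n : ℕ) {M : Type} [AddCommMonoid M] (f : ι → M)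
    (h : ∀ k, deg k ≠ n → f k = 0) : ∑ k : {i : ι // deg i = n}, f k.1 = ∑ k, f k := by
  rw [← Finset.sum_subtype (Finset.univ.filter fun k => deg k = n) (by simp) f, Finset.sum_filter]
  refine Finset.sum_congr rfl fun k _ => ?_
  split_ifs with hk
  · rfl
  · exact (h k hk).symm

theorem num_zero (C : Cx G) (n : ℕ) (hn : Finset.univ.sup C.deg < n) : C.num n = 0 := by
  unfold num
  rw [Fintype.card_eq_zero_iff]
  refine ⟨fun i => ?_⟩
  have := Finset.le_sup (f := C.deg) (Finset.mem_univ i.1)
  rw [i.2] at this
  omega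

theorem bm_sq (C : Cx G) (n : ℕ) : C.bm (n + 1) * C.bm n = 0 := by
  ext1 a b
  have h := congrFun (congrFun C.D_sq (C.cell (n + 1 + 1) a)) (C.cell n b)
  have h1 := sum_deg C.deg (n + 1) (fun k => C.D (C.cell (n + 1 + 1) a) k * C.D k (C.cell n b)) (fun k hk => by
      by_cases h0 : C.D (C.cell (n + 1 + 1) a) k = 0
      · rw [h0, zero_mul]
      · exfalso
        apply hk
        have := C.D_deg _ _ h0
        have h2 : C.deg (C.cell (n + 1 + 1) a) = n + 1 + 1 := ((Fintype.equivFin (C.Cel (n + 1 + 1))).symm a).2
        rw [h2] at this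
        omega)
  rw [← (Fintype.equivFin {i : C.ι // C.deg i = n + 1}).symm.sum_comp] at h1
  exact h1.trans h

/-- The complex, one degree at a time, with the cells of each degree numbered. -/
def free (C : Cx G) : FreeCx G where
  rank := C.num
  dim := Finset.univ.sup C.deg
  rank_eq_zero := C.num_zero
  d := C.bm
  d_comp_d := C.bm_sq

/-- the boundary map, of the underlying abelian groups -/
def bd (C : Cx G) : (C.ι → MonoidAlgebra ℤ G) →ₗ[ℤ] (C.ι → MonoidAlgebra ℤ G) :=
  C.D.vecMulLinear.restrictScalars ℤ

/-- the chains of degree `n` -/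
def chn (C : Cx G) (n : ℕ) : Submodule ℤ (C.ι → MonoidAlgebra ℤ G) := Submodule.pi {i | C.deg i ≠ n} fun _ => ⊥

/-- the cycles of degree `n` -/
def cyc (C : Cx G) (n : ℕ) : Submodule ℤ (C.ι → MonoidAlgebra ℤ G) := C.chn n ⊓ LinearMap.ker C.bd

/-- the boundaries of degree `n` -/
def bdy (C : Cx G) (n : ℕ) : Submodule ℤ (C.ι → MonoidAlgebra ℤ G) := (C.chn (n + 1)).map C.bd

/-- the `n`-th homology group of the complex of abelian groups -/
def Hom (C : Cx G) (n : ℕ) : Type := C.cyc n ⧸ (C.bdy n).submoduleOf (C.cyc n)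

instance (C : Cx G) (n : ℕ) : AddCommGroup (C.Hom n) := Submodule.Quotient.addCommGroup _

/-- The order of the torsion subgroup of the `n`-th homology group. -/
def torsOrder (C : Cx G) (n : ℕ) : ℕ := Nat.card (Submodule.torsion ℤ (C.Hom n))

/-- the boundary matrix of the quotient by `N` -/
def quotD (C : Cx G) (N : Subgroup G) [N.Normal] : Matrix C.ι C.ι (MonoidAlgebra ℤ (G ⧸ N)) :=
  C.D.map (MonoidAlgebra.mapDomainRingHom ℤ (QuotientGroup.mk' N))

theorem quotD_deg (C : Cx G) (N : Subgroup G) [N.Normal] (i j : C.ι) (h : C.quotD N i j ≠ 0) :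
    C.deg i = C.deg j + 1 :=
  C.D_deg i j fun h0 => h (by rw [quotD, Matrix.map_apply, h0, map_zero])

theorem quotD_sq (C : Cx G) (N : Subgroup G) [N.Normal] : C.quotD N * C.quotD N = 0 := by
  unfold quotD
  rw [← Matrix.map_mul, C.D_sq]
  exact Matrix.map_zero _ (map_zero _)

/-- The quotient complex over `G ⧸ N`: the chain complex of the quotient space by `N`. -/
def quot (C : Cx G) (N : Subgroup G) [N.Normal] : Cx (G ⧸ N) where
  ι := C.ι
  deg := C.deg
  D := C.quotD N
  D_deg := C.quotD_deg N
  D_sq := C.quotD_sq N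

/-- the boundary matrix of a product of two complexes -/
def prodD (C : Cx G) (E : Cx H) : Matrix (C.ι × E.ι) (C.ι × E.ι) (MonoidAlgebra ℤ (G × H)) :=
  Matrix.of fun x y =>
    (if x.2 = y.2 then MonoidAlgebra.mapDomainRingHom ℤ (MonoidHom.inl G H) (C.D x.1 y.1) else 0) +
    (if x.1 = y.1 then (-1) ^ C.deg x.1 * MonoidAlgebra.mapDomainRingHom ℤ (MonoidHom.inr G H) (E.D x.2 y.2)
      else 0)

theorem prodD_sq (C : Cx G) (E : Cx H) : C.prodD E * C.prodD E = 0 :=
  Pool.Agent.N496.LT.prod_sq C.D E.D C.deg C.D_deg C.D_sq E.D_sq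

theorem prodD_deg (C : Cx G) (E : Cx H) (x y : C.ι × E.ι) (h : C.prodD E x y ≠ 0) :
    C.deg x.1 + E.deg x.2 = C.deg y.1 + E.deg y.2 + 1 := by
  by_contra h0
  apply h
  rw [prodD, Matrix.of_apply]
  have h1 : (if x.2 = y.2 then MonoidAlgebra.mapDomainRingHom ℤ (MonoidHom.inl G H) (C.D x.1 y.1) else 0) = 0 := by
    split_ifs with h2
    · have h3 : C.D x.1 y.1 = 0 := by
        by_contra h3
        have := C.D_deg _ _ h3
        exact h0 (by rw [this, h2]; ring)
      rw [h3, map_zero]
    · rfl
  have h4 : (if x.1 = y.1 then (-1) ^ C.deg x.1 * MonoidAlgebra.mapDomainRingHom ℤ (MonoidHom.inr G H)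
      (E.D x.2 y.2) else 0) = 0 := by
    split_ifs with h2
    · have h3 : E.D x.2 y.2 = 0 := by
        by_contra h3
        have := E.D_deg _ _ h3
        exact h0 (by rw [this, h2]; ring)
      rw [h3, map_zero, mul_zero]
    · rfl
  rw [h1, h4, add_zero]

/-- The chain complex of the product of two spaces. -/
def prod (C : Cx G) (E : Cx H) : Cx (G × H) where
  ι := C.ι × E.ι
  deg x := C.deg x.1 + E.deg x.2
  D := C.prodD E
  D_deg := C.prodD_deg E
  D_sq := C.prodD_sq E

end Cx

/-! ### Simplicial homology of clique complexes, edge subdivisions -/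

section graph

variable {V : Type}

/-- the sign `(-1)^{#{u ∈ T : u < v}}` -/
def sg [LinearOrder V] (v : V) (T : Finset V) : ℤ := (-1) ^ (T.filter (fun u => u < v)).card

/-- the real simplicial chains on the cliques with `i` vertices, all in `A` -/
def chains (G : SimpleGraph V) (A : Set V) (i : ℕ) : Submodule ℝ (Finset V → ℝ) :=
  Submodule.pi {T | ¬ (G.IsClique (T : Set V) ∧ (T : Set V) ⊆ A ∧ T.card = i)} fun _ => ⊥

/-- the simplicial boundary -/
def sbd (V : Type) [Fintype V] [LinearOrder V] : (Finset V → ℝ) →ₗ[ℝ] (Finset V → ℝ) :=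
  LinearMap.pi fun T => ∑ v ∈ Tᶜ, sg v T • LinearMap.proj (insert v T)

/-- the `(i-1)`-st reduced real Betti number of the clique complex of the graph induced on `A` -/
def rb [Fintype V] [LinearOrder V] (G : SimpleGraph V) (A : Set V) (i : ℕ) : ℕ :=
  Module.finrank ℝ ↥(chains G A i ⊓ LinearMap.ker (sbd V)) - Module.finrank ℝ ↥((chains G A (i + 1)).map (sbd V))

/-- The clique complex of `G` is a real homology manifold with the real homology of the `(n-1)`-sphere: for every
clique `S` (the empty one included) the clique complex of the graph induced on the common neighbours of `S` (the link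
of `S`) has the reduced real homology of the sphere of dimension `n - 1 - |S|`. -/
def HSph (n : ℕ) [Fintype V] [LinearOrder V] (G : SimpleGraph V) : Prop :=
  ∀ S : Finset V, G.IsClique (S : Set V) → ∀ i : ℕ, rb G {v | ∀ u ∈ S, G.Adj v u} i = if i + S.card = n then 1 else 0

/-- The geometric realization of the clique complex of `G`: the vectors with nonnegative coordinates and sum `1`
whose support is a clique. -/
def Rea (G : SimpleGraph V) : Set (V → ℝ) := {x | (∀ v, 0 ≤ x v) ∧ ∑ᶠ v, x v = 1 ∧ G.IsClique {v | x v ≠ 0}}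

/-- adjacency in the subdivision of the edge `s t`: the new vertex `Fin.last n` is adjacent to `s`, `t` and the common
neighbours of `s` and `t`, and the edge `s t` is deleted. -/
def SdAdj {n : ℕ} (G : SimpleGraph (Fin n)) (s t : Fin n) (x y : Fin (n + 1)) : Prop :=
  (∃ a b, x = Fin.castSucc a ∧ y = Fin.castSucc b ∧ G.Adj a b ∧ s(a, b) ≠ s(s, t)) ∨
    (x = Fin.last n ∧ ∃ b, y = Fin.castSucc b ∧ (b = s ∨ b = t ∨ (G.Adj s b ∧ G.Adj t b))) ∨
    (y = Fin.last n ∧ ∃ a, x = Fin.castSucc a ∧ (a = s ∨ a = t ∨ (G.Adj s a ∧ G.Adj t a)))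

theorem sdAdj_symm {n : ℕ} (G : SimpleGraph (Fin n)) (s t : Fin n) : Std.Symm (SdAdj G s t) := ⟨by
    rintro x y (⟨a, b, h1, h2, h3, h4⟩ | h | h)
    · exact Or.inl ⟨b, a, h2, h1, h3.symm, by rwa [Sym2.eq_swap]⟩
    · exact Or.inr (Or.inr h)
    · exact Or.inr (Or.inl h)⟩

theorem sdAdj_irrefl {n : ℕ} (G : SimpleGraph (Fin n)) (s t : Fin n) : Std.Irrefl (SdAdj G s t) := ⟨by
    rintro x (⟨a, b, h1, h2, h3, -⟩ | ⟨h, b, h2, -⟩ | ⟨h, b, h2, -⟩)
    · rw [h1] at h2
      rw [Fin.castSucc_injective _ h2] at h3
      exact G.loopless.irrefl _ h3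
    · rw [h] at h2
      exact (Fin.castSucc_lt_last b).ne h2.symm
    · rw [h] at h2
      exact (Fin.castSucc_lt_last b).ne h2.symm⟩

/-- The subdivision of the edge `s t` of the clique complex of `G`. -/
def sd {n : ℕ} (G : SimpleGraph (Fin n)) (s t : Fin n) : SimpleGraph (Fin (n + 1)) where
  Adj := SdAdj G s t
  symm := sdAdj_symm G s t
  loopless := sdAdj_irrefl G s t

/-- `Sub G H`: the graph `H` is obtained from `G` by finitely many edge subdivisions. -/
inductive Sub {m : ℕ} (G : SimpleGraph (Fin m)) : ∀ {n : ℕ}, SimpleGraph (Fin n) → Prop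
  | refl : Sub G G
  | step {n : ℕ} (H : SimpleGraph (Fin n)) (s t : Fin n) : H.Adj s t → Sub G H → Sub G (sd H s t)

/-- A doubled `d`-cycle with coefficients in `F` in the clique complex of the graph `G`: `z` is a nonzero simplicial
`d`-cycle on the vertex set `Fin n`; every vertex `v` has two lifts `j v false`, `j v true` in `G`, which are
different and not adjacent, except that the vertices in `U` have only one lift; lifts of different vertices are
different; all the lifts of the simplices with nonzero coefficient are cliques of `G`, and so is the lift of `U`. -/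
structure Dbl (F : Type) [Field F] (G : SimpleGraph V) (d : ℕ) where
  n : ℕ
  z : Finset (Fin n) → F
  j : Fin n → Bool → V
  U : Finset (Fin n)
  z_ne : z ≠ 0
  z_card : ∀ σ, z σ ≠ 0 → σ.card = d + 1
  z_cyc : ∀ τ : Finset (Fin n), ∑ v ∈ τᶜ, (sg v τ) • z (insert v τ) = 0
  j_ne : ∀ v w, v ≠ w → ∀ a b, j v a ≠ j w b
  j_U : ∀ v ∈ U, j v true = j v false
  j_adj : ∀ v, v ∉ U → j v true ≠ j v false ∧ ¬ G.Adj (j v true) (j v false)
  clique : ∀ σ, z σ ≠ 0 → ∀ v ∈ σ, ∀ w ∈ σ, v ≠ w → ∀ a b, G.Adj (j v a) (j w b)
  cliqueU : ∀ v ∈ U, ∀ w ∈ U, v ≠ w → G.Adj (j v true) (j w true)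

end graph

/-! ### Right-angled Coxeter groups and the Davis complex -/

section davis

variable {V : Type}

open Classical in
/-- the Coxeter matrix of the right-angled Coxeter group of `G`: `m(u,v) = 2` if `u, v` are adjacent, `∞` (that is
`0` in Mathlib's convention) if they are distinct and not adjacent -/
def cox (G : SimpleGraph V) : CoxeterMatrix V where
  M := Matrix.of fun u v => if u = v then 1 else if G.Adj u v then 2 else 0
  isSymm := (Pool.Agent.W907.SG.cox G).isSymm
  diagonal := (Pool.Agent.W907.SG.cox G).diagonal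
  off_diagonal := (Pool.Agent.W907.SG.cox G).off_diagonal

/-- the right-angled Coxeter group of `G` -/
def W (G : SimpleGraph V) : Type := (cox G).Group

instance (G : SimpleGraph V) : Group (W G) := CoxeterMatrix.instGroupGroup (cox G)

/-- the generator which belongs to the vertex `v` -/
def gen (G : SimpleGraph V) (v : V) : W G := (cox G).simple v

open Classical in
theorem par_lift (G : SimpleGraph V) :
    (cox G).IsLiftable (fun v u => if u = v then (-1 : ℤˣ) else 1) :=
  Pool.Agent.W461.SGN.liftable G _ (by intro v; funext u; by_cases h : u = v <;> simp [h])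
    (by intro u v _; exact mul_comm _ _)

open Classical in
/-- the homomorphism to `(ℤ/2)^V` (written multiplicatively) which maps the generator `v` to the basis vector of `v` -/
def par (G : SimpleGraph V) : W G →* (V → ℤˣ) :=
  (cox G).toCoxeterSystem.lift ⟨fun v u => if u = v then -1 else 1, par_lift G⟩

/-- The kernel of the homomorphism from the right-angled Coxeter group to `(ℤ/2)^V`: a torsion-free subgroup of
index `2 ^ |V|`. -/
def Gam (G : SimpleGraph V) : Type := (par G).ker

instance (G : SimpleGraph V) : Group (Gam G) := Subgroup.toGroup _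

variable [Fintype V] [LinearOrder V] (G : SimpleGraph V)

/-- the set of the generators the parity of which in `w` is odd -/
def odd (w : W G) : Finset V := Finset.univ.filter fun v => par G w v = -1

/-- the product of the generators in `A` in increasing order -/
def rep (A : Finset V) : W G := ((A.sort (· ≤ ·)).map (gen G)).prod

theorem mul_rep_mem (w : W G) : w * (rep G (odd G w))⁻¹ ∈ (par G).ker := Pool.Agent.N496.LT.mul_rep_mem G w

/-- the element `w (rep (odd w))⁻¹` of the kernel -/
def gm (w : W G) : Gam G := ⟨w * (rep G (odd G w))⁻¹, mul_rep_mem G w⟩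

/-- The representatives of the `Gam G`-orbits of the cubes of the Davis complex: the pair `(T, A)` of disjoint sets of
vertices, `T` a clique, stands for the cube `a W_T`, `a = rep A`. -/
def Cell {V : Type} (G : SimpleGraph V) : Type :=
  {c : Finset V × Finset V // G.IsClique (c.1 : Set V) ∧ Disjoint c.1 c.2}

open Classical in
instance : Fintype (Cell G) := Subtype.fintype _

open Classical in
instance : DecidableEq (Cell G) := Subtype.instDecidableEq

open Classical in
/-- The boundary of the Davis complex: the boundary of the cube `a W_T` is the alternating sum over `t ∈ T` of the cubes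
`a W_{T - t}` and `- a t W_{T - t}`. -/
def bdry : Matrix (Cell G) (Cell G) (MonoidAlgebra ℤ (Gam G)) := Matrix.of fun c c' =>
  ∑ t ∈ c.1.1, if c'.1.1 = c.1.1.erase t then
    ((sg t (c.1.1.erase t) : ℤ) : MonoidAlgebra ℤ (Gam G)) *
      ((if c'.1.2 = c.1.2 then 1 else 0) - (if c'.1.2 = insert t c.1.2 then
        MonoidAlgebra.single (gm G (rep G c.1.2 * gen G t)) 1 else 0)) else 0

theorem bdry_deg (c c' : Cell G) (h : bdry G c c' ≠ 0) : c.1.1.card = c'.1.1.card + 1 :=
  (Pool.Agent.N496.LT.davis G).D_deg c c' h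

theorem bdry_sq : bdry G * bdry G = 0 := (Pool.Agent.N496.LT.davis G).D_sq

/-- The cellular chain complex of the Davis complex of `W G`, over `Gam G`. -/
def davis : Cx (Gam G) where
  ι := Cell G
  deg c := c.1.1.card
  D := bdry G
  D_deg := bdry_deg G
  D_sq := bdry_sq G

end davis

/-! ### Towers of coverings -/

section tower

variable {G : Type} [Group G]

/-- `K` is a decreasing sequence of normal subgroups of finite index with trivial intersection -/
structure Chain (K : ℕ → Subgroup G) : Prop where
  normal : ∀ i, (K i).Normal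
  finiteIndex : ∀ i, (K i).FiniteIndex
  anti : Antitone K
  iInf : ⨅ i, K i = ⊥

/-- `log |tors H_n| / [G : K]` for the covering which belongs to the normal subgroup `K` -/
def growth (C : Cx G) (K : Subgroup G) [K.Normal] (n : ℕ) : ℝ := Real.log ((C.quot K).torsOrder n) / K.index

end tower

end Pool.Agent.U966.LD
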