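import Pool.Agent.U966.LT.Pres
import Pool.Agent.U729.LT.Ex

/-!
# Project LT: from the data of a shellable sphere to the unconditional statements
-/

set_option autoImplicit false

noncomputable section

namespace Pool.Agent.U966.LD

open Filter Pool.Agent.U729.LT

/-- The clique complex of a graph on `Fin n`, as a set of finite sets of natural numbers. -/
def cl {n : ℕ} (G : SimpleGraph (Fin n)) : Set (Finset ℕ) :=
  {T | ∃ C : Finset (Fin n), G.IsClique (C : Set (Fin n)) ∧ C.map Fin.valEmbedding = T}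

theorem mem_cl {n : ℕ} (G : SimpleGraph (Fin n)) (T : Finset ℕ) :
    T ∈ cl G ↔ (∀ x ∈ T, x < n) ∧ ∀ x y : Fin n, x.1 ∈ T → y.1 ∈ T → x ≠ y → G.Adj x y := by
  constructor
  · rintro ⟨C, hC, rfl⟩
    refine ⟨?_, ?_⟩
    · intro x hx
      obtain ⟨y, -, rfl⟩ := Finset.mem_map.1 hx
      exact y.2
    · intro x y hx hy hxy
      have h1 : x ∈ C := (Finset.mem_map' (f := Fin.valEmbedding)).1 hx
      have h2 : y ∈ C := (Finset.mem_map' (f := Fin.valEmbedding)).1 hy
      exact hC (Finset.mem_coe.2 h1) (Finset.mem_coe.2 h2) hxy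
  · rintro ⟨h1, h2⟩
    refine ⟨Finset.univ.filter fun x => x.1 ∈ T, ?_, ?_⟩
    · intro x hx y hy hxy
      rw [Finset.mem_coe, Finset.mem_filter] at hx hy
      exact h2 x y hx.2 hy.2 hxy
    · ext x
      rw [Finset.mem_map]
      constructor
      · rintro ⟨y, hy, rfl⟩
        exact (Finset.mem_filter.1 hy).2
      · intro hx
        exact ⟨⟨x, h1 x hx⟩, Finset.mem_filter.2 ⟨Finset.mem_univ _, hx⟩, rfl⟩

theorem castSucc_ne_last {n : ℕ} (a : Fin n) : a.castSucc ≠ Fin.last n := (Fin.castSucc_lt_last a).ne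

theorem sdAdj_cc {n : ℕ} (G : SimpleGraph (Fin n)) (s t a b : Fin n) :
    (sd G s t).Adj a.castSucc b.castSucc ↔ G.Adj a b ∧ s(a, b) ≠ s(s, t) := by
  constructor
  · rintro (⟨a', b', h1, h2, h3⟩ | ⟨h, -⟩ | ⟨h, -⟩)
    · rw [Fin.castSucc_injective _ h1, Fin.castSucc_injective _ h2]
      exact h3
    · exact absurd h (castSucc_ne_last a)
    · exact absurd h (castSucc_ne_last b)
  · intro h
    exact Or.inl ⟨a, b, rfl, rfl, h⟩

theorem sdAdj_lc {n : ℕ} (G : SimpleGraph (Fin n)) (s t b : Fin n) :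
    (sd G s t).Adj (Fin.last n) b.castSucc ↔ b = s ∨ b = t ∨ (G.Adj s b ∧ G.Adj t b) := by
  constructor
  · rintro (⟨a', b', h1, -⟩ | ⟨-, b', h2, h3⟩ | ⟨h, -⟩)
    · exact absurd h1.symm (castSucc_ne_last a')
    · rw [Fin.castSucc_injective _ h2]
      exact h3
    · exact absurd h (castSucc_ne_last b)
  · intro h
    exact Or.inr (Or.inl ⟨rfl, b, rfl, h⟩)

/-- The clique complex of the subdivision of an edge is the stellar subdivision of the clique complex. -/
theorem cl_sd {n : ℕ} (G : SimpleGraph (Fin n)) (s t : Fin n) (hst : G.Adj s t) :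
    cl (sd G s t) = stellar (cl G) {s.1, t.1} n := by
  have hne : s ≠ t := hst.ne
  ext T
  simp only [stellar, Set.mem_setOf_eq]
  rw [mem_cl, mem_cl, mem_cl]
  constructor
  · rintro ⟨h1, h2⟩
    have hcc : ∀ x y : Fin n, x.1 ∈ T → y.1 ∈ T → x ≠ y → G.Adj x y ∧ s(x, y) ≠ s(s, t) := by
      intro x y hx hy hxy
      exact (sdAdj_cc G s t x y).1 (h2 x.castSucc y.castSucc hx hy fun h => hxy (Fin.castSucc_injective _ h))
    refine ⟨fun h3 => ?_, ?_⟩
    · exact (hcc s t (h3 (by simp)) (h3 (by simp)) hne).2 rfl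
    · by_cases hn : n ∈ T
      · refine Or.inr ⟨hn, ?_, ?_⟩
        · intro x hx
          rw [Finset.mem_union, Finset.mem_erase] at hx
          rcases hx with ⟨h3, h4⟩ | h3
          · have := h1 x h4
            omega
          · rw [Finset.mem_insert, Finset.mem_singleton] at h3
            rcases h3 with rfl | rfl
            · exact s.2
            · exact t.2
        · have hl : ∀ x : Fin n, x.1 ∈ T → x = s ∨ x = t ∨ (G.Adj s x ∧ G.Adj t x) := by
            intro x hx
            exact (sdAdj_lc G s t x).1 (h2 (Fin.last n) x.castSucc hn hx (castSucc_ne_last x).symm)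
          have hmem : ∀ x : Fin n, x.1 ∈ T.erase n ∪ {s.1, t.1} → x.1 ∈ T ∨ x = s ∨ x = t := by
            intro x hx
            rw [Finset.mem_union, Finset.mem_erase, Finset.mem_insert, Finset.mem_singleton] at hx
            rcases hx with h3 | h3 | h3
            · exact Or.inl h3.2
            · exact Or.inr (Or.inl (Fin.ext h3))
            · exact Or.inr (Or.inr (Fin.ext h3))
          intro x y hx hy hxy
          rcases hmem x hx with hx1 | rfl | rfl
          · rcases hmem y hy with hy1 | rfl | rfl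
            · exact (hcc x y hx1 hy1 hxy).1
            · rcases hl x hx1 with h | h | h
              · exact absurd h hxy
              · rw [h]; exact hst.symm
              · exact h.1.symm
            · rcases hl x hx1 with h | h | h
              · rw [h]; exact hst
              · exact absurd h hxy
              · exact h.2.symm
          · rcases hmem y hy with hy1 | h | h
            · rcases hl y hy1 with h | h | h
              · exact absurd h.symm hxy
              · rw [h]; exact hst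
              · exact h.1
            · exact absurd h.symm hxy
            · rw [h]; exact hst
          · rcases hmem y hy with hy1 | h | h
            · rcases hl y hy1 with h | h | h
              · rw [h]; exact hst.symm
              · exact absurd h.symm hxy
              · exact h.2
            · rw [h]; exact hst.symm
            · exact absurd h.symm hxy
      · refine Or.inl ⟨hn, ?_, ?_⟩
        · intro x hx
          have h3 := h1 x hx
          have h4 : x ≠ n := fun h => hn (h ▸ hx)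
          omega
        · intro x y hx hy hxy
          exact (hcc x y hx hy hxy).1
  · rintro ⟨h0, ⟨hn, h1, h2⟩ | ⟨hn, h1, h2⟩⟩
    · refine ⟨fun x hx => (h1 x hx).trans (Nat.lt_succ_self n), ?_⟩
      intro x y hx hy hxy
      have hx1 : x.1 < n := h1 _ hx
      have hy1 : y.1 < n := h1 _ hy
      obtain ⟨x', rfl⟩ : ∃ x' : Fin n, x = x'.castSucc := ⟨⟨x.1, hx1⟩, rfl⟩
      obtain ⟨y', rfl⟩ : ∃ y' : Fin n, y = y'.castSucc := ⟨⟨y.1, hy1⟩, rfl⟩
      rw [sdAdj_cc]
      refine ⟨h2 x' y' hx hy fun h => hxy (by rw [h]), fun h => h0 ?_⟩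
      rw [Sym2.eq_iff] at h
      intro z hz
      rw [Finset.mem_insert, Finset.mem_singleton] at hz
      rcases h with ⟨rfl, rfl⟩ | ⟨rfl, rfl⟩ <;> rcases hz with rfl | rfl <;> assumption
    · have hT : ∀ x : Fin n, x.1 ∈ T → x.1 ∈ T.erase n ∪ {s.1, t.1} := by
        intro x hx
        rw [Finset.mem_union, Finset.mem_erase]
        exact Or.inl ⟨x.2.ne, hx⟩
      have hs : s.1 ∈ T.erase n ∪ {s.1, t.1} := by simp
      have ht : t.1 ∈ T.erase n ∪ {s.1, t.1} := by simp
      refine ⟨fun x hx => ?_, ?_⟩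
      · by_cases h : x = n
        · omega
        · have := h1 x (Finset.mem_union_left _ (Finset.mem_erase.2 ⟨h, hx⟩))
          omega
      have hlast : ∀ y : Fin n, y.1 ∈ T → (sd G s t).Adj (Fin.last n) y.castSucc := by
        intro y hy
        rw [sdAdj_lc]
        by_cases h3 : y = s
        · exact Or.inl h3
        by_cases h4 : y = t
        · exact Or.inr (Or.inl h4)
        exact Or.inr (Or.inr ⟨h2 s y hs (hT y hy) (Ne.symm h3), h2 t y ht (hT y hy) (Ne.symm h4)⟩)
      intro x y hx hy hxy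
      by_cases hx1 : x = Fin.last n
      · by_cases hy1 : y = Fin.last n
        · exact absurd (hx1.trans hy1.symm) hxy
        · obtain ⟨y', rfl⟩ : ∃ y' : Fin n, y = y'.castSucc :=
            ⟨⟨y.1, by have h3 := y.2; have h4 : y.1 ≠ n := fun h => hy1 (Fin.ext h); omega⟩, rfl⟩
          rw [hx1]
          exact hlast y' hy
      · obtain ⟨x', rfl⟩ : ∃ x' : Fin n, x = x'.castSucc :=
          ⟨⟨x.1, by have h3 := x.2; have h4 : x.1 ≠ n := fun h => hx1 (Fin.ext h); omega⟩, rfl⟩
        by_cases hy1 : y = Fin.last n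
        · rw [hy1]
          exact (hlast x' hx).symm
        · obtain ⟨y', rfl⟩ : ∃ y' : Fin n, y = y'.castSucc :=
            ⟨⟨y.1, by have h3 := y.2; have h4 : y.1 ≠ n := fun h => hy1 (Fin.ext h); omega⟩, rfl⟩
          rw [sdAdj_cc]
          refine ⟨h2 x' y' (hT _ hx) (hT _ hy) fun h => hxy (by rw [h]), fun h => h0 ?_⟩
          rw [Sym2.eq_iff] at h
          intro z hz
          rw [Finset.mem_insert, Finset.mem_singleton] at hz
          rcases h with ⟨rfl, rfl⟩ | ⟨rfl, rfl⟩ <;> rcases hz with rfl | rfl <;> assumption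

theorem pls_sub {m n k : ℕ} {G : SimpleGraph (Fin m)} {H : SimpleGraph (Fin n)} (h : Sub G H) (hG : PLS k (cl G)) :
    PLS k (cl H) := by
  induction h with
  | refl => exact hG
  | step H s t h1 h2 ih =>
    rw [cl_sd H s t h1]
    refine PLS.sub _ _ _ ih ?_ ⟨s.1, by simp⟩ ?_
    · rw [mem_cl]
      refine ⟨?_, ?_⟩
      · intro x hx
        rw [Finset.mem_insert, Finset.mem_singleton] at hx
        rcases hx with rfl | rfl
        · exact s.2
        · exact t.2
      · intro x y hx hy hxy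
        rw [Finset.mem_insert, Finset.mem_singleton] at hx hy
        rcases hx with hx | hx <;> rcases hy with hy | hy
        · exact absurd (Fin.ext (hx.trans hy.symm)) hxy
        · rw [Fin.ext hx, Fin.ext hy]; exact h1
        · rw [Fin.ext hx, Fin.ext hy]; exact h1.symm
        · exact absurd (Fin.ext (hx.trans hy.symm)) hxy
    · intro T hT h3
      exact lt_irrefl _ (((mem_cl _ _).1 hT).1 _ h3)

section

variable {d w n p : ℕ} {fs rs : List ℕ} {zs js : List (ℕ × ℕ)} {U : ℕ} {c : Fin n → Fin (d + 1)}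

/-- The first final statement, from data. -/
theorem fin3 [hp : Fact p.Prime] (hp2 : p ≠ 2) (hd : 1 ≤ d) (hD : Data d w n p fs zs js U c) (hl : 2 ≤ fs.length)
    (h : chk (2 * d + 1) w fs.length fs rs [] = true) :
    ∃ (n : ℕ) (S : SimpleGraph (Fin n)), PLS (2 * d + 1) (cl S) ∧ (∃ K : ℕ → Subgroup (Gam S), Chain K) ∧
    (davis S).free.DetL2Acyclic ∧ ((davis S).prod ((davis S).prod (davis S))).free.DetL2Acyclic ∧
    ((davis S).prod ((davis S).prod (davis S))).free.l2torsion = 0 ∧
    ∃ b : ℝ, 0 < b ∧ ∀ (K : ℕ → Subgroup (Gam S)) [∀ i, (K i).Normal], Chain K → ∀ᶠ i in atTop,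
      b ≤ growth ((davis S).prod ((davis S).prod (davis S))) ((K i).prod ((K i).prod (K i))) (3 * d + 1) := by
  obtain ⟨N, H, f, Z, c', h1, h2, h3, h4, h5, -, h6⟩ := main_data hD hl h
  obtain ⟨n, S, k1, -, k3, k4, k5, k6, k7⟩ := Pool.Agent.U966.LT.main3S d N H hd h1 f h2 h3 h4 p hp2 Z c' h6
  refine ⟨n, S, pls_sub (sub_iff.1 k1) h5, ?_, k4, k5, k6, (2 ^ n / 2 ^ Z.U.card / 2) ^ 3 * Real.log p, ?_, ?_⟩
  · obtain ⟨K, k1, k2, k3, k4⟩ := k3
    exact ⟨K, k1, k2, k3, k4⟩
  · have : (1 : ℝ) < p := by exact_mod_cast hp.out.one_lt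
    have := Real.log_pos this
    positivity
  · intro K hKn hK
    have h0 : (0 : ℝ) < 2 ^ n / 2 ^ Z.U.card := by positivity
    filter_upwards [@k7 K hKn hK.finiteIndex hK.anti hK.iInf _ (half_pos h0) (half_lt_self h0)] with i hi
    rw [growth_eq]
    exact hi

/-- The second final statement, from data. -/
theorem fin2 [hp : Fact p.Prime] (hp2 : p ≠ 2) (hd : 1 ≤ d) (hD : Data d w n p fs zs js U c) (hl : 2 ≤ fs.length)
    (h : chk (2 * d + 1) w fs.length fs rs [] = true) :
    ∃ (n : ℕ) (S : SimpleGraph (Fin n)), PLS (2 * d + 1) (cl S) ∧ (∃ K : ℕ → Subgroup (Gam S), Chain K) ∧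
    ∃ b : ℝ, 0 < b ∧ ∀ (K : ℕ → Subgroup (Gam S)) [∀ i, (K i).Normal], Chain K → ∀ᶠ i in atTop,
      ∀ m, m = 2 * d ∨ m = 2 * d + 1 → b ≤ growth ((davis S).prod (davis S)) ((K i).prod (K i)) m := by
  obtain ⟨N, H, f, Z, c', h1, h2, h3, h4, h5, -, h6⟩ := main_data hD hl h
  obtain ⟨n, S, k1, -, k3, k7⟩ := Pool.Agent.U966.LT.main2S d N H hd h1 f h2 h3 h4 p hp2 Z c' h6
  refine ⟨n, S, pls_sub (sub_iff.1 k1) h5, ?_, (2 ^ n / 2 ^ Z.U.card / 2) ^ 2 * Real.log p, ?_, ?_⟩
  · obtain ⟨K, k1, k2, k3, k4⟩ := k3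
    exact ⟨K, k1, k2, k3, k4⟩
  · have : (1 : ℝ) < p := by exact_mod_cast hp.out.one_lt
    have := Real.log_pos this
    positivity
  · intro K hKn hK
    have h0 : (0 : ℝ) < 2 ^ n / 2 ^ Z.U.card := by positivity
    filter_upwards [@k7 K hKn hK.finiteIndex hK.anti hK.iInf _ (half_pos h0) (half_lt_self h0)] with i hi
    intro m hm
    rw [growth_eq]
    exact hi m hm

end

end Pool.Agent.U966.LD
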