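import Mathlib
import Pool.Agent.W907.SG.Defs

/-!
# Project LT, statement P1: linear algebra and signs
-/

set_option autoImplicit false

namespace Pool.Agent.U966.LT

open Module Pool.Agent.W907.SG

section cod

variable {F E E' : Type} [Field F] [AddCommGroup E] [Module F E] [FiniteDimensional F E]
  [AddCommGroup E'] [Module F E'] [FiniteDimensional F E']

/-- the codimension of `A ⊓ I` in `A` is at most `k` -/
def Cod (A I : Submodule F E) (k : ℕ) : Prop := finrank F A ≤ finrank F ↥(A ⊓ I) + k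

theorem Cod.mono {A B I : Submodule F E} {k : ℕ} (h : Cod A I k) (hB : B ≤ A) : Cod B I k := by
  unfold Cod at h ⊢
  have h1 := Submodule.finrank_sup_add_finrank_inf_eq B (A ⊓ I)
  have h2 : B ⊓ (A ⊓ I) = B ⊓ I := by
    rw [← inf_assoc, inf_eq_left.2 hB]
  have h3 : finrank F ↥(B ⊔ (A ⊓ I)) ≤ finrank F A :=
    Submodule.finrank_mono (sup_le hB inf_le_left)
  rw [h2] at h1
  omega

theorem cod_iInf {ι : Type} (A : Submodule F E) (I : ι → Submodule F E) (k : ι → ℕ) (s : Finset ι)
    (h : ∀ i ∈ s, Cod A (I i) (k i)) : finrank F A ≤ finrank F ↥(A ⊓ ⨅ i ∈ s, I i) + ∑ i ∈ s, k i := by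
  classical
  induction s using Finset.induction_on with
  | empty =>
    have : (⨅ i ∈ (∅ : Finset ι), I i) = ⊤ := by simp
    rw [this, inf_top_eq]
    simp
  | insert i s hi ih =>
    have h1 := ih fun j hj => h j (Finset.mem_insert_of_mem hj)
    have h2 := (h i (Finset.mem_insert_self _ _)).mono (inf_le_left : A ⊓ ⨅ i ∈ s, I i ≤ A)
    unfold Cod at h2
    rw [Finset.sum_insert hi, Finset.iInf_insert]
    have h3 : A ⊓ (I i ⊓ ⨅ j ∈ s, I j) = (A ⊓ ⨅ j ∈ s, I j) ⊓ I i := by
      rw [inf_assoc, inf_comm (I i)]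
    rw [h3]
    omega

theorem ker_le (f : E →ₗ[F] E') (A : Submodule F E) :
    finrank F A ≤ finrank F ↥(A.map f) + finrank F ↥(A ⊓ LinearMap.ker f) := by
  have h1 := LinearMap.finrank_range_add_finrank_ker (f.domRestrict A)
  have h2 : LinearMap.range (f.domRestrict A) = A.map f := by
    rw [LinearMap.range_domRestrict]
  have h3 : finrank F ↥(LinearMap.ker (f.domRestrict A)) ≤ finrank F ↥(A ⊓ LinearMap.ker f) := by
    have h4 : (LinearMap.ker (f.domRestrict A)).map A.subtype ≤ A ⊓ LinearMap.ker f := by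
      rintro _ ⟨x, hx, rfl⟩
      exact ⟨x.2, hx⟩
    rw [← Submodule.finrank_map_subtype_eq A (LinearMap.ker (f.domRestrict A))]
    exact Submodule.finrank_mono h4
  rw [h2] at h1
  omega

end cod

end Pool.Agent.U966.LT
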