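import Pool.Agent.U966.LT.P1a

/-!
# Project LT, statement P1: ordered products and signs
-/

set_option autoImplicit false
set_option linter.unusedSectionVars false

namespace Pool.Agent.U966.LT

open Module Pool.Agent.W907.SG

section prod

variable {α R : Type} [LinearOrder α] [Monoid R]

/-- the product of the `f x`, `x ∈ σ`, in increasing order -/
def pr (σ : Finset α) (f : α → R) : R := ((σ.sort (· ≤ ·)).map f).prod

theorem pr_eq (σ : Finset α) (f : α → R) (h : (σ : Set α).Pairwise (Function.onFun Commute f)) :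
    pr σ f = σ.noncommProd f h := by
  unfold pr Finset.noncommProd
  have h1 : σ.1.map f = (((σ.sort (· ≤ ·)).map f : List R) : Multiset R) := by
    rw [← Multiset.map_coe, Finset.sort_eq]
  have h2 : ∀ (m m' : Multiset R) (e : m = m') (c : {x | x ∈ m}.Pairwise Commute)
      (c' : {x | x ∈ m'}.Pairwise Commute), m.noncommProd c = m'.noncommProd c' := by
    rintro m _ rfl c c'
    rfl
  have h3 : {x | x ∈ (((σ.sort (· ≤ ·)).map f : List R) : Multiset R)}.Pairwise Commute := by
    rw [← h1]
    exact Finset.noncommProd_lemma σ f h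
  rw [h2 _ _ h1 _ h3, Multiset.noncommProd_coe]

theorem pr_empty (f : α → R) : pr ∅ f = 1 := by
  simp [pr]

theorem pr_insert (σ : Finset α) (x : α) (f : α → R) (hx : x ∉ σ)
    (h : ((insert x σ : Finset α) : Set α).Pairwise (Function.onFun Commute f)) :
    pr (insert x σ) f = f x * pr σ f := by
  rw [pr_eq _ _ h, Finset.noncommProd_insert_of_notMem _ _ _ _ hx, pr_eq]

theorem pr_congr (σ : Finset α) (f g : α → R) (h : ∀ x ∈ σ, f x = g x) : pr σ f = pr σ g := by
  unfold pr
  congr 1
  refine List.map_congr_left fun x hx => h x ?_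
  exact (Finset.mem_sort _).1 hx

theorem pr_comm (σ : Finset α) (f : α → R) (g : R) (h : ∀ x ∈ σ, Commute g (f x)) : Commute g (pr σ f) := by
  unfold pr
  refine Commute.list_prod_right _ _ fun y hy => ?_
  obtain ⟨x, hx, rfl⟩ := List.mem_map.1 hy
  exact h x ((Finset.mem_sort _).1 hx)

end prod

section signs

variable {α V : Type} [LinearOrder α] [LinearOrder V]

/-- the sign of the pair -/
def hh (φ : α → V) (a b : α) : ℤ := if a < b ∧ φ b < φ a then -1 else 1

/-- the sign of the reordering of `T` by `φ` -/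
def gg (φ : α → V) (T : Finset α) : ℤ := ∏ a ∈ T, ∏ b ∈ T, hh φ a b

theorem hh_sq (φ : α → V) (a b : α) : hh φ a b * hh φ a b = 1 := by
  unfold hh
  split_ifs <;> norm_num

theorem gg_sq (φ : α → V) (T : Finset α) : gg φ T * gg φ T = 1 := by
  unfold gg
  rw [← Finset.prod_mul_distrib]
  refine Finset.prod_eq_one fun a _ => ?_
  rw [← Finset.prod_mul_distrib]
  exact Finset.prod_eq_one fun b _ => hh_sq φ a b

theorem hh_self (φ : α → V) (a : α) : hh φ a a = 1 := by
  unfold hh
  rw [if_neg (fun h => lt_irrefl _ h.1)]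

theorem gg_insert (φ : α → V) (v : α) (T : Finset α) (h : v ∉ T) :
    gg φ (insert v T) = gg φ T * ∏ b ∈ T, (hh φ v b * hh φ b v) := by
  unfold gg
  rw [Finset.prod_insert h, Finset.prod_insert h, hh_self, one_mul]
  have h1 : ∀ a ∈ T, ∏ b ∈ insert v T, hh φ a b = hh φ a v * ∏ b ∈ T, hh φ a b :=
    fun a _ => Finset.prod_insert h
  rw [Finset.prod_congr rfl h1, Finset.prod_mul_distrib, Finset.prod_mul_distrib]
  ring

theorem gg_congr (φ ψ : α → V) (T : Finset α) (h : ∀ x ∈ T, φ x = ψ x) : gg φ T = gg ψ T := by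
  unfold gg
  refine Finset.prod_congr rfl fun a ha => Finset.prod_congr rfl fun b hb => ?_
  unfold hh
  rw [h a ha, h b hb]

theorem sg_prod {β : Type} [LinearOrder β] (v : β) (T : Finset β) : sg v T = ∏ b ∈ T, (if b < v then -1 else 1 : ℤ) := by
  unfold sg
  rw [Finset.prod_ite, Finset.prod_const, Finset.prod_const_one, mul_one]

/-- the sign rule -/
theorem gg_insert' [DecidableEq V] (φ : α → V) (v : α) (T : Finset α) (h : v ∉ T)
    (hφ : ∀ x ∈ insert v T, ∀ y ∈ insert v T, φ x = φ y → x = y) :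
    gg φ (insert v T) = gg φ T * (sg v T * sg (φ v) (T.image φ)) := by
  rw [gg_insert φ v T h, sg_prod, sg_prod, Finset.prod_image (fun x hx y hy e =>
    hφ x (Finset.mem_insert_of_mem hx) y (Finset.mem_insert_of_mem hy) e), ← Finset.prod_mul_distrib]
  congr 1
  refine Finset.prod_congr rfl fun b hb => ?_
  have hbv : b ≠ v := fun e => h (e ▸ hb)
  have hφbv : φ b ≠ φ v := fun e => hbv (hφ b (Finset.mem_insert_of_mem hb) v (Finset.mem_insert_self _ _) e)
  unfold hh
  rcases lt_or_gt_of_ne hbv with h1 | h1 <;> rcases lt_or_gt_of_ne hφbv with h2 | h2 <;>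
    simp [h1, h2, not_lt.2 h1.le, not_lt.2 h2.le]

end signs

end Pool.Agent.U966.LT
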