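import Pool.Agent.U966.LT.P1b
import Pool.Agent.N496.LT.Stm

/-!
# Project LT, statement P1: the cycles
-/

set_option autoImplicit false
set_option linter.unusedSectionVars false

namespace Pool.Agent.U966.LT

open Module Pool.Agent.W907.SG Pool.Agent.N496.LT

section ops

variable {V F M : Type} [Fintype V] [LinearOrder V] [Field F] [AddCommGroup M] [Module F M]
  {G : SimpleGraph V} {d : ℕ} (X : Dbl F G d) (ρ : V → Module.End F M)

/-- the partial projections -/
noncomputable def pp (x : Fin X.n) (b : Bool) : Module.End F M :=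
  if x ∈ X.U then 1 else if b then 1 - ρ (X.j x true) else (1 - ρ (X.j x false)) * ρ (X.j x true)

/-- their sum -/
noncomputable def ee (x : Fin X.n) : Module.End F M :=
  if x ∈ X.U then 1 else 1 - ρ (X.j x false) * ρ (X.j x true)

theorem pp_add (x : Fin X.n) (hx : x ∉ X.U) : pp X ρ x false + pp X ρ x true = ee X ρ x := by
  unfold pp ee
  rw [if_neg hx, if_neg hx, if_neg hx]
  simp only [Bool.false_eq_true, if_false, if_true]
  rw [sub_mul, one_mul]
  abel

theorem s_pp (hinv : ∀ v, ρ v * ρ v = 1) (x : Fin X.n) (hx : x ∉ X.U) (b : Bool) :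
    ρ (X.j x b) * pp X ρ x b = - pp X ρ x b := by
  unfold pp
  rw [if_neg hx]
  cases b with
  | true =>
    simp only [if_true]
    rw [mul_sub, mul_one, hinv]
    abel
  | false =>
    simp only [Bool.false_eq_true, if_false]
    rw [← mul_assoc, mul_sub, mul_one, hinv, ← neg_mul, neg_sub]

theorem comm_pp (g : Module.End F M) (y : Fin X.n) (h : ∀ a, Commute g (ρ (X.j y a))) (b : Bool) :
    Commute g (pp X ρ y b) := by
  unfold pp
  split_ifs
  · exact Commute.one_right _
  · exact (Commute.one_right _).sub_right (h true)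
  · exact ((Commute.one_right _).sub_right (h false)).mul_right (h true)

theorem comm_ee (g : Module.End F M) (y : Fin X.n) (h : ∀ a, Commute g (ρ (X.j y a))) :
    Commute g (ee X ρ y) := by
  unfold ee
  split_ifs
  · exact Commute.one_right _
  · exact (Commute.one_right _).sub_right ((h false).mul_right (h true))

/-- all the lifts of the simplex are cliques -/
def Cl (σ : Finset (Fin X.n)) : Prop := ∀ v ∈ σ, ∀ w ∈ σ, v ≠ w → ∀ a b, G.Adj (X.j v a) (X.j w b)

theorem Cl.mono {σ τ : Finset (Fin X.n)} (h : Cl X σ) (hτ : τ ⊆ σ) : Cl X τ :=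
  fun v hv w hw => h v (hτ hv) w (hτ hw)

variable (hcomm : ∀ u v, G.Adj u v → Commute (ρ u) (ρ v))
include hcomm

theorem comm1 {σ : Finset (Fin X.n)} (h : Cl X σ) {x y : Fin X.n} (hx : x ∈ σ) (hy : y ∈ σ) (hxy : x ≠ y)
    (a b : Bool) : Commute (ρ (X.j x a)) (ρ (X.j y b)) := hcomm _ _ (h x hx y hy hxy a b)

theorem comm2 {σ : Finset (Fin X.n)} (h : Cl X σ) {x y : Fin X.n} (hx : x ∈ σ) (hy : y ∈ σ) (hxy : x ≠ y)
    (a b : Bool) : Commute (ρ (X.j x a)) (pp X ρ y b) :=
  comm_pp X ρ _ y (fun c => comm1 X ρ hcomm h hx hy hxy a c) b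

theorem comm3 {σ : Finset (Fin X.n)} (h : Cl X σ) {x y : Fin X.n} (hx : x ∈ σ) (hy : y ∈ σ) (hxy : x ≠ y)
    (a b : Bool) : Commute (pp X ρ x a) (pp X ρ y b) :=
  comm_pp X ρ _ y (fun c => (comm2 X ρ hcomm h hy hx hxy.symm c a).symm) b

theorem comm4 {σ : Finset (Fin X.n)} (h : Cl X σ) {x y : Fin X.n} (hx : x ∈ σ) (hy : y ∈ σ) (hxy : x ≠ y)
    (a : Bool) : Commute (pp X ρ x a) (ee X ρ y) :=
  comm_ee X ρ _ y (fun c => (comm2 X ρ hcomm h hy hx hxy.symm c a).symm)

theorem comm5 {σ : Finset (Fin X.n)} (h : Cl X σ) {x y : Fin X.n} (hx : x ∈ σ) (hy : y ∈ σ) (hxy : x ≠ y)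
    (a : Bool) : Commute (ρ (X.j x a)) (ee X ρ y) :=
  comm_ee X ρ _ y (fun c => comm1 X ρ hcomm h hx hy hxy a c)

theorem comm6 {σ : Finset (Fin X.n)} (h : Cl X σ) {x y : Fin X.n} (hx : x ∈ σ) (hy : y ∈ σ) (hxy : x ≠ y) :
    Commute (ee X ρ x) (ee X ρ y) :=
  comm_ee X ρ _ y (fun c => (comm5 X ρ hcomm h hy hx hxy.symm c).symm)

theorem pw_pp {σ : Finset (Fin X.n)} (h : Cl X σ) (b : Fin X.n → Bool) :
    (σ : Set (Fin X.n)).Pairwise (Function.onFun Commute fun x => pp X ρ x (b x)) :=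
  fun _ hx _ hy hxy => comm3 X ρ hcomm h hx hy hxy _ _

theorem pw_ee {σ : Finset (Fin X.n)} (h : Cl X σ) :
    (σ : Set (Fin X.n)).Pairwise (Function.onFun Commute fun x => ee X ρ x) :=
  fun _ hx _ hy hxy => comm6 X ρ hcomm h hx hy hxy

omit hcomm in
/-- vectors on which the single lifts of the vertices of `σ` act by `-1` -/
def NU (σ : Finset (Fin X.n)) : Submodule F M where
  carrier := {m | ∀ x ∈ σ, x ∈ X.U → ρ (X.j x true) m = - m}
  add_mem' := by
    intro m m' h h' x hx hxU
    rw [map_add, h x hx hxU, h' x hx hxU]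
    abel
  zero_mem' := by
    intro x _ _
    rw [map_zero, neg_zero]
  smul_mem' := by
    intro c m h x hx hxU
    rw [map_smul, h x hx hxU, smul_neg]

theorem anti (hinv : ∀ v, ρ v * ρ v = 1) {σ : Finset (Fin X.n)} (h : Cl X σ) (b : Fin X.n → Bool)
    {x : Fin X.n} (hx : x ∈ σ) {m : M} (hm : m ∈ NU X ρ σ) :
    ρ (X.j x (b x)) (pr σ (fun y => pp X ρ y (b y)) m) = - pr σ (fun y => pp X ρ y (b y)) m := by
  by_cases hxU : x ∈ X.U
  · have e : X.j x (b x) = X.j x true := by
      cases b x with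
      | true => rfl
      | false => exact (X.j_U x hxU).symm
    rw [e]
    have hc : Commute (ρ (X.j x true)) (pr σ (fun y => pp X ρ y (b y))) := by
      refine pr_comm _ _ _ fun y hy => ?_
      by_cases hxy : x = y
      · subst hxy
        unfold pp
        rw [if_pos hxU]
        exact Commute.one_right _
      · exact comm2 X ρ hcomm h hx hy hxy _ _
    have h1 := congrArg (fun f : Module.End F M => f m) hc.eq
    simp only [Module.End.mul_apply] at h1
    rw [h1, hm x hx hxU, map_neg]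
  · have h1 : pr σ (fun y => pp X ρ y (b y)) =
        pp X ρ x (b x) * pr (σ.erase x) (fun y => pp X ρ y (b y)) := by
      have h2 := pr_insert (σ.erase x) x (fun y => pp X ρ y (b y)) (Finset.notMem_erase x σ) (by
        rw [Finset.insert_erase hx]
        exact pw_pp X ρ hcomm h b)
      rwa [Finset.insert_erase hx] at h2
    have h2 := congrArg (fun f : Module.End F M => f (pr (σ.erase x) (fun y => pp X ρ y (b y)) m))
      (s_pp X ρ hinv x hxU (b x))
    simp only [Module.End.mul_apply, LinearMap.neg_apply] at h2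
    rw [h1, Module.End.mul_apply]
    exact h2

end ops

section chain

variable {V F M : Type} [Fintype V] [LinearOrder V] [Field F] [AddCommGroup M] [Module F M]
  {G : SimpleGraph V} {d : ℕ} (X : Dbl F G d) (ρ : V → Module.End F M)

/-- the vertices of the simplex below `T` -/
def sT (T : Finset V) : Finset (Fin X.n) := Finset.univ.filter fun x => ∃ b, X.j x b ∈ T

/-- the lifts occurring in `T` -/
def bT (T : Finset V) (x : Fin X.n) : Bool := decide (x ∉ X.U ∧ X.j x true ∈ T)

/-- the lift of `τ` -/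
def lf (b : Fin X.n → Bool) (τ : Finset (Fin X.n)) : Finset V := τ.image fun x => X.j x (b x)

/-- normalised choices -/
def Nm (b : Fin X.n → Bool) (τ : Finset (Fin X.n)) : Prop := ∀ x, b x = true → x ∈ τ ∧ x ∉ X.U

theorem j_inj {x y : Fin X.n} {a b : Bool} (h : X.j x a = X.j y b) : x = y := by
  by_contra hxy
  exact X.j_ne x y hxy a b h

theorem mem_lf {b : Fin X.n → Bool} {τ : Finset (Fin X.n)} {v : V} :
    v ∈ lf X b τ ↔ ∃ x ∈ τ, X.j x (b x) = v := by
  unfold lf
  rw [Finset.mem_image]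

theorem sT_lf (b : Fin X.n → Bool) (τ : Finset (Fin X.n)) : sT X (lf X b τ) = τ := by
  ext x
  unfold sT
  rw [Finset.mem_filter]
  constructor
  · rintro ⟨-, c, hc⟩
    obtain ⟨y, hy, e⟩ := (mem_lf X).1 hc
    rw [← j_inj X e]
    exact hy
  · intro hx
    exact ⟨Finset.mem_univ _, b x, (mem_lf X).2 ⟨x, hx, rfl⟩⟩

theorem bT_lf {b : Fin X.n → Bool} {τ : Finset (Fin X.n)} (h : Nm X b τ) : bT X (lf X b τ) = b := by
  funext x
  unfold bT
  by_cases hb : b x = true
  · rw [hb, decide_eq_true_iff]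
    refine ⟨(h x hb).2, (mem_lf X).2 ⟨x, (h x hb).1, by rw [hb]⟩⟩
  · have hb' : b x = false := by simpa using hb
    rw [hb', decide_eq_false_iff_not]
    rintro ⟨hU, hx⟩
    obtain ⟨y, hy, e⟩ := (mem_lf X).1 hx
    obtain rfl := j_inj X e
    rw [hb'] at e
    exact (X.j_adj _ hU).1 e.symm

theorem nm_bT (T : Finset V) : Nm X (bT X T) (sT X T) := by
  intro x hx
  unfold bT at hx
  rw [decide_eq_true_iff] at hx
  refine ⟨?_, hx.1⟩
  unfold sT
  rw [Finset.mem_filter]
  exact ⟨Finset.mem_univ _, true, hx.2⟩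

/-- the chain -/
noncomputable def cc (H : Finset (Fin X.n) → M) (T : Finset V) : M :=
  if lf X (bT X T) (sT X T) = T then (gg (fun x => X.j x (bT X T x)) (sT X T) • X.z (sT X T)) •
    pr (sT X T) (fun x => pp X ρ x (bT X T x)) (H (sT X T)) else 0

theorem cc_lf (H : Finset (Fin X.n) → M) {b : Fin X.n → Bool} {τ : Finset (Fin X.n)} (h : Nm X b τ) :
    cc X ρ H (lf X b τ) = (gg (fun x => X.j x (b x)) τ • X.z τ) • pr τ (fun x => pp X ρ x (b x)) (H τ) := by
  unfold cc
  rw [sT_lf, bT_lf X h, if_pos rfl]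

theorem cc_not (H : Finset (Fin X.n) → M) {T : Finset V} (h : ∀ b τ, Nm X b τ → T ≠ lf X b τ) :
    cc X ρ H T = 0 := by
  unfold cc
  rw [if_neg fun e => h _ _ (nm_bT X T) e.symm]

theorem nm_update {b : Fin X.n → Bool} {τ : Finset (Fin X.n)} (h : Nm X b τ) (x : Fin X.n) (c : Bool)
    (hc : c = true → x ∉ X.U) : Nm X (Function.update b x c) (insert x τ) := by
  intro y hy
  by_cases hxy : y = x
  · subst hxy
    rw [Function.update_self] at hy
    exact ⟨Finset.mem_insert_self _ _, hc hy⟩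
  · rw [Function.update_of_ne hxy] at hy
    exact ⟨Finset.mem_insert_of_mem (h y hy).1, (h y hy).2⟩

theorem insert_lf (b : Fin X.n → Bool) {τ : Finset (Fin X.n)} {x : Fin X.n} (hx : x ∉ τ) (c : Bool) :
    lf X (Function.update b x c) (insert x τ) = insert (X.j x c) (lf X b τ) := by
  unfold lf
  rw [Finset.image_insert, Function.update_self]
  congr 1
  refine Finset.image_congr fun y hy => ?_
  have : y ≠ x := fun e => hx (e ▸ hy)
  simp only [Function.update_of_ne this]

theorem nm_erase {b : Fin X.n → Bool} {τ : Finset (Fin X.n)} (h : Nm X b τ) (x : Fin X.n) :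
    Nm X (Function.update b x false) (τ.erase x) := by
  intro y hy
  by_cases hxy : y = x
  · subst hxy
    rw [Function.update_self] at hy
    exact absurd hy (by decide)
  · rw [Function.update_of_ne hxy] at hy
    exact ⟨Finset.mem_erase.2 ⟨hxy, (h y hy).1⟩, (h y hy).2⟩

theorem erase_lf (b : Fin X.n → Bool) {τ : Finset (Fin X.n)} {x : Fin X.n} (hx : x ∈ τ) :
    lf X (Function.update b x false) (τ.erase x) = (lf X b τ).erase (X.j x (b x)) := by
  ext v
  rw [mem_lf, Finset.mem_erase, mem_lf]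
  constructor
  · rintro ⟨y, hy, rfl⟩
    have hyx := Finset.ne_of_mem_erase hy
    rw [Function.update_of_ne hyx]
    exact ⟨X.j_ne _ _ hyx _ _, y, Finset.mem_of_mem_erase hy, rfl⟩
  · rintro ⟨hv, y, hy, rfl⟩
    have hyx : y ≠ x := by
      rintro rfl
      exact hv rfl
    exact ⟨y, Finset.mem_erase.2 ⟨hyx, hy⟩, by rw [Function.update_of_ne hyx]⟩

theorem bd_not (H : Finset (Fin X.n) → M) {T : Finset V} (h : ∀ b τ, Nm X b τ → T ≠ lf X b τ) :
    bd F (cc X ρ H) T = 0 := by
  rw [bd_apply]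
  refine Finset.sum_eq_zero fun w hw => ?_
  rw [cc_not X ρ H, smul_zero]
  intro b τ hb e
  have hwl : w ∈ lf X b τ := by
    rw [← e]
    exact Finset.mem_insert_self _ _
  obtain ⟨x, hx, hxw⟩ := (mem_lf X).1 hwl
  refine h _ _ (nm_erase X hb x) ?_
  rw [erase_lf X b hx, hxw, ← e, Finset.erase_insert (by simpa using hw)]

end chain

end Pool.Agent.U966.LT
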