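import Pool.Agent.U966.LT.P1c

/-!
# Project LT, statement P1: the chains are cycles
-/

set_option autoImplicit false
set_option linter.unusedSectionVars false

namespace Pool.Agent.U966.LT

open Module Pool.Agent.W907.SG Pool.Agent.N496.LT

variable {V F M : Type} [Fintype V] [LinearOrder V] [Field F] [AddCommGroup M] [Module F M]
  {G : SimpleGraph V} {d : ℕ} (X : Dbl F G d) (ρ : V → Module.End F M)

theorem cl_of {σ : Finset (Fin X.n)} (h : X.z σ ≠ 0) : Cl X σ :=
  fun v hv w hw hvw a b => X.clique σ h v hv w hw hvw a b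

variable (hcomm : ∀ u v, G.Adj u v → Commute (ρ u) (ρ v))
include hcomm

/-- one summand of the boundary -/
theorem term (H : Finset (Fin X.n) → M) {b : Fin X.n → Bool} {τ : Finset (Fin X.n)} (hb : Nm X b τ)
    {x : Fin X.n} (hx : x ∉ τ) (c : Bool) (hc : c = true → x ∉ X.U) :
    sg (X.j x c) (lf X b τ) • cc X ρ H (insert (X.j x c) (lf X b τ)) =
      (gg (fun y => X.j y (b y)) τ • (sg x τ • X.z (insert x τ))) •
        pr τ (fun y => pp X ρ y (b y)) (pp X ρ x c (H (insert x τ))) := by
  classical
  rw [← insert_lf X b hx c, cc_lf X ρ H (nm_update X hb x c hc)]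
  by_cases hz : X.z (insert x τ) = 0
  · rw [hz]
    simp
  have hCl := cl_of X hz
  have h1 : pr (insert x τ) (fun y => pp X ρ y (Function.update b x c y)) =
      pr τ (fun y => pp X ρ y (b y)) * pp X ρ x c := by
    rw [pr_insert τ x _ hx (pw_pp X ρ hcomm hCl _), Function.update_self]
    have h2 : pr τ (fun y => pp X ρ y (Function.update b x c y)) = pr τ (fun y => pp X ρ y (b y)) := by
      refine pr_congr _ _ _ fun y hy => ?_
      have hyx : y ≠ x := fun e => hx (e ▸ hy)
      rw [Function.update_of_ne hyx]
    rw [h2]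
    refine (pr_comm _ _ _ fun y hy => ?_).eq
    exact comm3 X ρ hcomm hCl (Finset.mem_insert_self _ _) (Finset.mem_insert_of_mem hy)
      (fun e => hx (e ▸ hy)) _ _
  have h2 : gg (fun y => X.j y (Function.update b x c y)) (insert x τ) =
      gg (fun y => X.j y (b y)) τ * (sg x τ * sg (X.j x c) (lf X b τ)) := by
    rw [gg_insert' _ x τ hx (fun y _ y' _ e => j_inj X e), Function.update_self]
    have h3 : gg (fun y => X.j y (Function.update b x c y)) τ = gg (fun y => X.j y (b y)) τ := by
      refine gg_congr _ _ _ fun y hy => ?_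
      have hyx : y ≠ x := fun e => hx (e ▸ hy)
      rw [Function.update_of_ne hyx]
    have h4 : τ.image (fun y => X.j y (Function.update b x c y)) = lf X b τ := by
      unfold lf
      refine Finset.image_congr fun y hy => ?_
      have : y ≠ x := fun e => hx (e ▸ hy)
      simp only [Function.update_of_ne this]
    rw [h3, h4]
  rw [h1, h2, Module.End.mul_apply, ← smul_assoc, smul_smul, smul_smul]
  congr 2
  calc sg (X.j x c) (lf X b τ) * (gg (fun y => X.j y (b y)) τ * (sg x τ * sg (X.j x c) (lf X b τ)))
      = gg (fun y => X.j y (b y)) τ * sg x τ * (sg (X.j x c) (lf X b τ) * sg (X.j x c) (lf X b τ)) := by ring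
    _ = _ := by rw [sg_mul_self, mul_one]

/-- the boundary over a lift -/
theorem bd_lf (H : Finset (Fin X.n) → M) {b : Fin X.n → Bool} {τ : Finset (Fin X.n)} (hb : Nm X b τ) :
    bd F (cc X ρ H) (lf X b τ) = ∑ x ∈ τᶜ, (gg (fun y => X.j y (b y)) τ • (sg x τ • X.z (insert x τ))) •
        pr τ (fun y => pp X ρ y (b y)) (ee X ρ x (H (insert x τ))) := by
  classical
  rw [bd_apply]
  obtain ⟨P, hP⟩ : ∃ P : Finset (Fin X.n × Bool), P = (τᶜ ×ˢ (Finset.univ : Finset Bool)).filter
    fun p => p.2 = true → p.1 ∉ X.U := ⟨_, rfl⟩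
  have hPm : ∀ p : Fin X.n × Bool, p ∈ P ↔ p.1 ∉ τ ∧ (p.2 = true → p.1 ∉ X.U) := by
    intro p
    rw [hP, Finset.mem_filter, Finset.mem_product, Finset.mem_compl]
    simp
  have h1 : (P.image fun p => X.j p.1 p.2) ⊆ (lf X b τ)ᶜ := by
    intro v hv
    obtain ⟨p, hp, rfl⟩ := Finset.mem_image.1 hv
    rw [Finset.mem_compl, mem_lf]
    rintro ⟨y, hy, e⟩
    exact ((hPm p).1 hp).1 (j_inj X e ▸ hy)
  rw [← Finset.sum_subset h1]
  · rw [Finset.sum_image]
    · rw [hP, Finset.sum_filter, Finset.sum_product]
      refine Finset.sum_congr rfl fun x hx => ?_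
      rw [Finset.mem_compl] at hx
      rw [Fintype.sum_bool]
      by_cases hU : x ∈ X.U
      · rw [if_neg (by simp [hU]), if_pos (by simp), zero_add, term X ρ hcomm H hb hx false (by simp)]
        have : pp X ρ x false = ee X ρ x := by
          unfold pp ee
          rw [if_pos hU, if_pos hU]
        rw [this]
      · rw [if_pos (fun _ => hU), if_pos (fun _ => hU), term X ρ hcomm H hb hx true (fun _ => hU),
          term X ρ hcomm H hb hx false (fun _ => hU), ← smul_add, ← map_add, ← LinearMap.add_apply,
          add_comm, pp_add X ρ x hU]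
    · intro p hp q hq e
      have h2 := j_inj X e
      have h3 : p.2 = q.2 := by
        by_cases hU : p.1 ∈ X.U
        · have a1 := ((hPm p).1 hp).2
          have a2 := ((hPm q).1 hq).2
          rw [← h2] at a2
          cases hp2 : p.2 with
          | true => exact absurd hU (a1 hp2)
          | false =>
            cases hq2 : q.2 with
            | true => exact absurd hU (a2 hq2)
            | false => rfl
        · by_contra hne
          replace e : X.j p.1 p.2 = X.j q.1 q.2 := e
          rw [← h2] at e
          cases hp2 : p.2 with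
          | true =>
            cases hq2 : q.2 with
            | true => exact hne (hp2.trans hq2.symm)
            | false =>
              rw [hp2, hq2] at e
              exact (X.j_adj _ hU).1 e
          | false =>
            cases hq2 : q.2 with
            | false => exact hne (hp2.trans hq2.symm)
            | true =>
              rw [hp2, hq2] at e
              exact (X.j_adj _ hU).1 e.symm
      exact Prod.ext h2 h3
  · intro w hw hw'
    rw [cc_not X ρ H, smul_zero]
    intro b' σ hb' e
    have hwl : w ∈ lf X b' σ := by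
      rw [← e]
      exact Finset.mem_insert_self _ _
    obtain ⟨x, hx, hxw⟩ := (mem_lf X).1 hwl
    apply hw'
    rw [Finset.mem_image]
    refine ⟨(x, b' x), (hPm _).2 ⟨?_, fun h => (hb' x h).2⟩, hxw⟩
    intro hxτ
    have h2 : lf X b τ = lf X (Function.update b' x false) (σ.erase x) := by
      rw [erase_lf X b' hx, hxw, ← e, Finset.erase_insert (by simpa using hw)]
    have h3 := congrArg (sT X) h2
    rw [sT_lf, sT_lf] at h3
    rw [h3] at hxτ
    exact Finset.notMem_erase x σ hxτ

/-- the cycles -/
theorem cyc (hinv : ∀ v, ρ v * ρ v = 1) (H : Finset (Fin X.n) → M) (A : Set V) (hA : ∀ v b, X.j v b ∈ A)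
    (hH : ∀ σ, X.z σ ≠ 0 → H σ ∈ NU X ρ σ)
    (hc : ∀ τ x x', x ∉ τ → x' ∉ τ → X.z (insert x τ) ≠ 0 → X.z (insert x' τ) ≠ 0 →
      ee X ρ x (H (insert x τ)) = ee X ρ x' (H (insert x' τ))) :
    cc X ρ H ∈ ZZ G ρ A ∅ (d + 1) := by
  classical
  refine ⟨mem_KK.2 ⟨?_, ?_⟩, ?_⟩
  · intro T hT
    by_cases h : ∃ b τ, Nm X b τ ∧ T = lf X b τ
    · obtain ⟨b, τ, hb, rfl⟩ := h
      rw [cc_lf X ρ H hb]
      by_cases hz : X.z τ = 0
      · rw [hz]
        simp
      · exfalso
        apply hT
        have hCl := cl_of X hz
        refine ⟨?_, ?_, ?_⟩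
        · intro v hv w hw hvw
          obtain ⟨x, hx, rfl⟩ := (mem_lf X).1 (Finset.mem_coe.1 hv)
          obtain ⟨y, hy, rfl⟩ := (mem_lf X).1 (Finset.mem_coe.1 hw)
          exact hCl x hx y hy (fun e => hvw (by rw [e])) _ _
        · intro v hv
          obtain ⟨x, hx, rfl⟩ := (mem_lf X).1 (Finset.mem_coe.1 hv)
          exact hA _ _
        · unfold lf
          rw [Finset.card_image_of_injOn fun x _ y _ e => j_inj X e]
          exact X.z_card τ hz
    · push Not at h
      exact cc_not X ρ H fun b τ hb => h b τ hb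
  · rintro T t (ht | ht)
    · by_cases h : ∃ b τ, Nm X b τ ∧ T = lf X b τ
      · obtain ⟨b, τ, hb, rfl⟩ := h
        rw [cc_lf X ρ H hb]
        by_cases hz : X.z τ = 0
        · rw [hz]
          simp
        · obtain ⟨x, hx, rfl⟩ := (mem_lf X).1 ht
          rw [map_smul, anti X ρ hcomm hinv (cl_of X hz) b hx (hH τ hz), smul_neg]
      · push Not at h
        rw [cc_not X ρ H fun b τ hb => h b τ hb, map_zero, neg_zero]
    · exact absurd ht (Set.notMem_empty _)
  · show bd F (cc X ρ H) = 0
    funext T
    by_cases h : ∃ b τ, Nm X b τ ∧ T = lf X b τ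
    · obtain ⟨b, τ, hb, rfl⟩ := h
      rw [bd_lf X ρ hcomm H hb]
      by_cases hx0 : ∃ x0, x0 ∉ τ ∧ X.z (insert x0 τ) ≠ 0
      · obtain ⟨x0, hx0, hz0⟩ := hx0
        have h1 : ∀ x ∈ τᶜ, (gg (fun y => X.j y (b y)) τ • (sg x τ • X.z (insert x τ))) •
            pr τ (fun y => pp X ρ y (b y)) (ee X ρ x (H (insert x τ))) =
            (gg (fun y => X.j y (b y)) τ • (sg x τ • X.z (insert x τ))) •
            pr τ (fun y => pp X ρ y (b y)) (ee X ρ x0 (H (insert x0 τ))) := by
          intro x hx
          by_cases hz : X.z (insert x τ) = 0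
          · rw [hz]
            simp
          · rw [hc τ x x0 (by simpa using hx) hx0 hz hz0]
        rw [Finset.sum_congr rfl h1, ← Finset.sum_smul, ← Finset.smul_sum, X.z_cyc τ, smul_zero, zero_smul]
        rfl
      · push Not at hx0
        refine Finset.sum_eq_zero fun x hx => ?_
        rw [hx0 x (by simpa using hx)]
        simp
    · push Not at h
      exact bd_not X ρ H fun b τ hb => h b τ hb

/-- the divided vectors are determined by the chain -/
theorem inj (H : Finset (Fin X.n) → M) (h0 : cc X ρ H = 0) {σ : Finset (Fin X.n)} (hz : X.z σ ≠ 0) :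
    pr σ (fun y => ee X ρ y) (H σ) = 0 := by
  classical
  have hCl := cl_of X hz
  have h1 : ∀ b, Nm X b σ → pr σ (fun y => pp X ρ y (b y)) (H σ) = 0 := by
    intro b hb
    have h2 := congrFun h0 (lf X b σ)
    rw [cc_lf X ρ H hb, Pi.zero_apply] at h2
    have h3 : gg (fun y => X.j y (b y)) σ • X.z σ ≠ 0 := by
      intro h4
      have h5 := congrArg (fun t => gg (fun y => X.j y (b y)) σ • t) h4
      simp only [smul_smul, gg_sq, one_smul, smul_zero] at h5
      exact hz h5
    exact (smul_eq_zero.1 h2).resolve_left h3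
  have key : ∀ R : Finset (Fin X.n), R ⊆ σ → ∀ b, Nm X b (σ \ R) →
      pr (σ \ R) (fun y => pp X ρ y (b y)) (pr R (fun y => ee X ρ y) (H σ)) = 0 := by
    intro R
    induction R using Finset.induction_on with
    | empty =>
      intro _ b hb
      rw [Finset.sdiff_empty] at hb ⊢
      rw [pr_empty]
      exact h1 b hb
    | insert x R hx ih =>
      intro hR b hb
      have hxσ : x ∈ σ := hR (Finset.mem_insert_self _ _)
      have hRσ : R ⊆ σ := fun y hy => hR (Finset.mem_insert_of_mem hy)
      have hxτ : x ∉ σ \ insert x R := by simp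
      have e1 : insert x (σ \ insert x R) = σ \ R := by
        ext y
        simp only [Finset.mem_insert, Finset.mem_sdiff, not_or]
        constructor
        · rintro (rfl | ⟨h1, h2, h3⟩)
          · exact ⟨hxσ, hx⟩
          · exact ⟨h1, h3⟩
        · rintro ⟨h1, h2⟩
          by_cases h3 : y = x
          · exact Or.inl h3
          · exact Or.inr ⟨h1, h3, h2⟩
      have hCl1 : Cl X (insert x (σ \ insert x R)) := by
        rw [e1]
        exact hCl.mono X Finset.sdiff_subset
      have hval : ∀ c, (c = true → x ∉ X.U) → pr (σ \ insert x R) (fun y => pp X ρ y (b y))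
          (pp X ρ x c (pr R (fun y => ee X ρ y) (H σ))) = 0 := by
        intro c hc
        have h2 := ih hRσ (Function.update b x c) (by
          rw [← e1]
          exact nm_update X hb x c hc)
        rw [← e1, pr_insert _ x _ hxτ (pw_pp X ρ hcomm hCl1 _), Function.update_self] at h2
        have h3 : pr (σ \ insert x R) (fun y => pp X ρ y (Function.update b x c y)) =
            pr (σ \ insert x R) (fun y => pp X ρ y (b y)) := by
          refine pr_congr _ _ _ fun y hy => ?_
          have hyx : y ≠ x := fun e => hxτ (e ▸ hy)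
          rw [Function.update_of_ne hyx]
        have h4 : Commute (pp X ρ x c) (pr (σ \ insert x R) (fun y => pp X ρ y (b y))) := by
          refine pr_comm _ _ _ fun y hy => ?_
          exact comm3 X ρ hcomm hCl1 (Finset.mem_insert_self _ _) (Finset.mem_insert_of_mem hy)
            (fun e => hxτ (e ▸ hy)) _ _
        rw [h3, h4.eq, Module.End.mul_apply] at h2
        exact h2
      rw [pr_insert R x _ hx (pw_ee X ρ hcomm (hCl.mono X hR)), Module.End.mul_apply]
      by_cases hU : x ∈ X.U
      · have : ee X ρ x = pp X ρ x false := by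
          unfold pp ee
          rw [if_pos hU, if_pos hU]
        rw [this]
        exact hval false (by simp)
      · rw [← pp_add X ρ x hU, LinearMap.add_apply, map_add, hval false (by simp), hval true (fun _ => hU),
          add_zero]
  have h2 := key σ (Finset.Subset.refl σ) (fun _ => false) (fun x hx => absurd hx (by simp))
  rw [Finset.sdiff_self, pr_empty] at h2
  exact h2

end Pool.Agent.U966.LT
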