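import Pool.Agent.U966.LT.Asm
import Pool.Agent.U966.LT.Def

/-!
# Project LT: the final statements in the notation of `Def.lean`
-/

set_option autoImplicit false

open scoped Matrix

noncomputable section

namespace Pool.Agent.U966.LD

open Module Filter Topology Pool.Agent.TH630.Tor
open Pool.Agent.R782.Bal (Emb)

namespace Cx

variable {G H : Type} [Group G] [Group H]

/-- the complex in the notation of `N496/LT` -/
def toG (C : Cx G) : Pool.Agent.N496.LT.GCx G where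
  ι := C.ι
  deg := C.deg
  D := C.D
  D_deg := C.D_deg
  D_sq := C.D_sq

theorem toG_free (C : Cx G) : C.toG.toFree = C.free := rfl

theorem toG_prod (C : Cx G) (E : Cx H) : (C.prod E).toG = C.toG.prod E.toG := rfl

theorem toG_quot (C : Cx G) (N : Subgroup G) [N.Normal] : (C.quot N).toG = C.toG.quot N := rfl

theorem chn_iff (C : Cx G) (n : ℕ) (v : C.ι → MonoidAlgebra ℤ G) : v ∈ C.chn n ↔ ∀ i, C.deg i ≠ n → v i = 0 := by
  unfold chn
  rw [Submodule.mem_pi]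
  rfl

theorem mem_cyc (C : Cx G) (n : ℕ) (v : C.ι → MonoidAlgebra ℤ G) :
    v ∈ C.cyc n ↔ (∀ i, C.deg i ≠ n → v i = 0) ∧ v ᵥ* C.D = 0 := by
  unfold cyc
  rw [Submodule.mem_inf, C.chn_iff, LinearMap.mem_ker]
  rfl

theorem mem_bdy (C : Cx G) (n : ℕ) (v : C.ι → MonoidAlgebra ℤ G) :
    v ∈ C.bdy n ↔ ∃ u : C.ι → MonoidAlgebra ℤ G, (∀ i, C.deg i ≠ n + 1 → u i = 0) ∧ u ᵥ* C.D = v := by
  unfold bdy
  rw [Submodule.mem_map]
  constructor
  · rintro ⟨u, h1, h2⟩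
    exact ⟨u, (C.chn_iff _ _).1 h1, h2⟩
  · rintro ⟨u, h1, h2⟩
    exact ⟨u, (C.chn_iff _ _).2 h1, h2⟩

theorem toG_cyc (C : Cx G) (n : ℕ) : C.toG.cyc n = C.cyc n :=
  Submodule.ext fun v => (C.mem_cyc n v).symm

theorem toG_bdy (C : Cx G) (n : ℕ) : C.toG.bdy n = C.bdy n :=
  Submodule.ext fun v => (C.mem_bdy n v).symm

theorem toG_tors (C : Cx G) (n : ℕ) : C.toG.torsOrder n = C.torsOrder n := by
  unfold Pool.Agent.N496.LT.GCx.torsOrder
  rw [toG_cyc, toG_bdy]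
  rfl

end Cx

section graph

variable {V : Type}

theorem sub_iff {m n : ℕ} {G : SimpleGraph (Fin m)} {H : SimpleGraph (Fin n)} :
    Pool.Agent.N496.LT.Sub G H ↔ Sub G H := by
  constructor
  · intro h
    induction h with
    | refl => exact Sub.refl
    | step H s t h1 h2 ih => exact Sub.step H s t h1 ih
  · intro h
    induction h with
    | refl => exact Pool.Agent.N496.LT.Sub.refl
    | step H s t h1 h2 ih => exact Pool.Agent.N496.LT.Sub.step H s t h1 ih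

theorem rea_eq (G : SimpleGraph V) : Pool.Agent.R782.Bal.Rea G = Rea G := rfl

/-- the cycle in the notation of `N496/LT` -/
def Dbl.toD {F : Type} [Field F] {G : SimpleGraph V} {d : ℕ} (Z : Dbl F G d) : Pool.Agent.N496.LT.Dbl F G d where
  n := Z.n
  z := Z.z
  j := Z.j
  U := Z.U
  z_ne := Z.z_ne
  z_card := Z.z_card
  z_cyc := Z.z_cyc
  j_ne := Z.j_ne
  j_U := Z.j_U
  j_adj := Z.j_adj
  clique := Z.clique
  cliqueU := Z.cliqueU

theorem hsph_iff [Fintype V] [LinearOrder V] (n : ℕ) (G : SimpleGraph V) :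
    Pool.Agent.TH652.Above.HSph n G ↔ HSph n G := by
  have h1 : ∀ (A : Set V) (i : ℕ), Pool.Agent.W907.SG.KK G (fun _ => (- LinearMap.id : ℝ →ₗ[ℝ] ℝ)) A ∅ i =
      chains G A i := by
    intro A i
    ext c
    rw [Pool.Agent.W907.SG.mem_KK, chains, Submodule.mem_pi]
    constructor
    · intro h T hT
      exact h.1 T hT
    · intro h
      exact ⟨fun T hT => h T hT, fun T t _ => by simp⟩
  have h2 : (Pool.Agent.W907.SG.bd ℝ : (Finset V → ℝ) →ₗ[ℝ] (Finset V → ℝ)) = sbd V := by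
    refine LinearMap.ext fun c => funext fun T => ?_
    rw [Pool.Agent.W907.SG.bd_apply, sbd, LinearMap.pi_apply, LinearMap.sum_apply]
    rfl
  have h3 : ∀ (A : Set V) (i : ℕ), Pool.Agent.W907.SG.beta G (fun _ => (- LinearMap.id : ℝ →ₗ[ℝ] ℝ)) A ∅ i =
      rb G A i := by
    intro A i
    unfold Pool.Agent.W907.SG.beta Pool.Agent.W907.SG.ZZ Pool.Agent.W907.SG.BB rb
    rw [h1, h1, h2]
  unfold Pool.Agent.TH652.Above.HSph HSph
  refine forall_congr' fun S => forall_congr' fun _ => forall_congr' fun i => ?_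
  rw [h3]
  rfl

end graph

theorem toG_davis {V : Type} [Fintype V] [LinearOrder V] (G : SimpleGraph V) :
    (davis G).toG = Pool.Agent.N496.LT.davis G := rfl

theorem growth_eq {G : Type} [Group G] (C : Cx G) (K : Subgroup G) [K.Normal] (n : ℕ) :
    growth C K n = Real.log ((C.toG.quot K).torsOrder n) / K.index := by
  unfold growth
  rw [← Cx.toG_quot, Cx.toG_tors]

/-- The case of a product of three Davis complexes. -/
theorem triple (d N : ℕ) (H : SimpleGraph (Fin N)) (hd : 1 ≤ d) (hH : HSph (2 * d + 1) H)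
    (f : (Fin N → ℝ) → EuclideanSpace ℝ (Fin (2 * d + 1))) (hf : ContinuousOn f (Rea H))
    (hf1 : ∀ x ∈ Rea H, ‖f x‖ = 1) (hfi : Set.InjOn f (Rea H)) (p : ℕ) [Fact p.Prime] (hp : p ≠ 2)
    (Z : Dbl (ZMod p) H d) (c : Fin Z.n → Fin (d + 1))
    (hc : ∀ v w a b, H.Adj (Z.j v a) (Z.j w b) → c v ≠ c w) :
    ∃ (n : ℕ) (S : SimpleGraph (Fin n)), Sub H S ∧ HSph (2 * d + 1) S ∧
    (∃ K : ℕ → Subgroup (Gam S), Chain K) ∧ (davis S).free.DetL2Acyclic ∧
    ((davis S).prod ((davis S).prod (davis S))).free.DetL2Acyclic ∧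
    ((davis S).prod ((davis S).prod (davis S))).free.l2torsion = 0 ∧
    ∀ (K : ℕ → Subgroup (Gam S)) [∀ i, (K i).Normal], Chain K →
      ∀ c : ℝ, 0 < c → c < 2 ^ n / 2 ^ Z.U.card → ∀ᶠ i in atTop, c ^ 3 * Real.log p ≤
        growth ((davis S).prod ((davis S).prod (davis S))) ((K i).prod ((K i).prod (K i))) (3 * d + 1) := by
  obtain ⟨n, S, h1, h2, h3, h4, h5, h6, h7⟩ := Pool.Agent.U966.LT.main3S d N H hd ((hsph_iff _ _).2 hH)
    f hf hf1 hfi p hp Z.toD c hc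
  refine ⟨n, S, sub_iff.1 h1, (hsph_iff _ _).1 h2, ?_, ?_⟩
  · obtain ⟨K, k1, k2, k3, k4⟩ := h3
    exact ⟨K, k1, k2, k3, k4⟩
  refine ⟨h4, h5, h6, ?_⟩
  intro K hKn hK c hc0 hc1
  filter_upwards [@h7 K hKn hK.finiteIndex hK.anti hK.iInf c hc0 hc1] with i hi
  rw [growth_eq]
  exact hi

/-- The case of a product of two Davis complexes. -/
theorem double (d N : ℕ) (H : SimpleGraph (Fin N)) (hd : 1 ≤ d) (hH : HSph (2 * d + 1) H)
    (f : (Fin N → ℝ) → EuclideanSpace ℝ (Fin (2 * d + 1))) (hf : ContinuousOn f (Rea H))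
    (hf1 : ∀ x ∈ Rea H, ‖f x‖ = 1) (hfi : Set.InjOn f (Rea H)) (p : ℕ) [Fact p.Prime] (hp : p ≠ 2)
    (Z : Dbl (ZMod p) H d) (c : Fin Z.n → Fin (d + 1))
    (hc : ∀ v w a b, H.Adj (Z.j v a) (Z.j w b) → c v ≠ c w) :
    ∃ (n : ℕ) (S : SimpleGraph (Fin n)), Sub H S ∧ HSph (2 * d + 1) S ∧
    (∃ K : ℕ → Subgroup (Gam S), Chain K) ∧
    ∀ (K : ℕ → Subgroup (Gam S)) [∀ i, (K i).Normal], Chain K →
      ∀ c : ℝ, 0 < c → c < 2 ^ n / 2 ^ Z.U.card → ∀ᶠ i in atTop, ∀ m, m = 2 * d ∨ m = 2 * d + 1 →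
        c ^ 2 * Real.log p ≤ growth ((davis S).prod (davis S)) ((K i).prod (K i)) m := by
  obtain ⟨n, S, h1, h2, h3, h7⟩ := Pool.Agent.U966.LT.main2S d N H hd ((hsph_iff _ _).2 hH)
    f hf hf1 hfi p hp Z.toD c hc
  refine ⟨n, S, sub_iff.1 h1, (hsph_iff _ _).1 h2, ?_, ?_⟩
  · obtain ⟨K, k1, k2, k3, k4⟩ := h3
    exact ⟨K, k1, k2, k3, k4⟩
  intro K hKn hK c hc0 hc1
  filter_upwards [@h7 K hKn hK.finiteIndex hK.anti hK.iInf c hc0 hc1] with i hi
  intro m hm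
  rw [growth_eq]
  exact hi m hm

end Pool.Agent.U966.LD
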